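import Pool.Agent.Helper10.LV.InfLine
import Pool.Agent.Helper10.LB.FinLines
import Pool.Agent.Helper8.LV.Final

/-! # LV-FL: the integral points lie on finitely many lines -/

set_option autoImplicit false

namespace Pool.Agent.Helper10.LV

open scoped BigOperators
open Pool.Agent.Helper8.LG Pool.Agent.Helper8.LV Pool.Agent.Helper10.LB

/-- **The integral points lie on finitely many lines** (over any field of constants). -/
theorem fin_lines {k₀ L : Type*} [Field k₀] [Field L] [CharZero L] [Algebra k₀ L]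
    (hfg : (⊤ : IntermediateField k₀ L).FG)
    {σ ι : Type*} [Fintype σ] [DecidableEq σ] [Fintype ι] [DecidableEq ι]
    (d b q : ι → ℕ) (a aA : (i : ι) → Sym σ (d i) → L) (ap : (i : ι) → Sym σ (b i) → L)
    (ah : (i : ι) → Sym σ (q i) → L) (hF : Fam d b q a aA ap ah) (hAk : Over k₀ aA)
    (hpk : Over k₀ ap) (hq : ∀ i, 0 < q i) (c : ℕ)
    (hc : (Fintype.card (Ix σ q) : Cardinal) ≤ Algebra.trdeg k₀
      (IntermediateField.adjoin k₀ (Set.range fun p : Ix σ q => ah p.1 p.2)) + c)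
    (Z : Finset ι) (i₀ : σ)
    (hw1 : 2 * Fintype.card σ + c ≤ ∑ i, q i + Z.card + 1)
    (hw2 : Fintype.card σ + 1 ≤ ∑ i, q i)
    (A : Subalgebra k₀ L) (hA : A.FG) :
    ∃ Λ : Set (Submodule L (σ → L)), Λ.Finite ∧ (∀ W ∈ Λ, Module.finrank L W ≤ 2) ∧
      ∀ x : σ → L, x i₀ = 1 → Pt a Z A.toSubring x → (∀ i, form (ap i) x ≠ 0) →
        ∃ W ∈ Λ, x ∈ W := by
  classical
  suffices hmain : ∀ S' ⊆ {x : σ → L | x i₀ = 1 ∧ Pt a Z A.toSubring x ∧
      ∀ i, form (ap i) x ≠ 0}, S'.Infinite →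
      ∃ W : Submodule L (σ → L), Module.finrank L W ≤ 2 ∧ (S' ∩ W).Infinite by
    obtain ⟨Λ, h1, h2, h3⟩ := greedy _ hmain i₀ (fun x hx => hx.1)
    exact ⟨Λ, h1, h2, fun x hx hp hP => h3 x ⟨hx, hp, hP⟩⟩
  intro S' hS' hinf
  by_cases hj : ∃ j₁ : σ, j₁ ≠ i₀
  · obtain ⟨j₁, hj₁⟩ := hj
    obtain ⟨T, k, hT, hind, hfin, D, θ, hD, hDk⟩ := reduce hfg q ah c hc
    obtain ⟨s, hs⟩ := hA
    set A' : Subalgebra k L := Algebra.adjoin k (s : Set L) with hA'
    have hAA' : ∀ f ∈ A, f ∈ A' := by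
      intro f hf
      rw [← hs] at hf
      induction hf using Algebra.adjoin_induction with
      | mem x hx => exact Algebra.subset_adjoin hx
      | algebraMap r =>
        have h1 : algebraMap k₀ L r = algebraMap k L (algebraMap k₀ k r) :=
          IsScalarTower.algebraMap_apply k₀ k L r
        rw [h1]
        exact A'.algebraMap_mem _
      | add x y _ _ hx hy => exact add_mem hx hy
      | mul x y _ _ hx hy => exact mul_mem hx hy
    obtain ⟨α, β, p, p', -, -, -, -, -, hline⟩ := inf_line d b q a aA ap ah hF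
      (over_tower hAk) (over_tower hpk) hq T hind hfin D (fun j => j.1) θ hD
      (fun j => j.2) hDk Z i₀ j₁ hj₁ (by omega) hw2 A' ⟨s, rfl⟩ S' hinf (by
        intro x hx
        obtain ⟨hx1, hx2, hx3⟩ := hS' hx
        refine ⟨hx1, ⟨hx2.zero, hx2.ne, ?_⟩, hx3⟩
        intro i hi J
        exact (hx2.int i hi J).map_of_comp_eq (Subring.inclusion (S := A.toSubring)
          (T := A'.toSubring) (fun f hf => hAA' f hf)) (RingHom.id L) rfl)
    refine ⟨Submodule.span L ({p, p'} : Set (σ → L)), ?_, hline.mono ?_⟩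
    · refine (finrank_span_le_card ({p, p'} : Set (σ → L))).trans ?_
      rw [Set.toFinset_card, Fintype.card_ofFinset]
      exact Finset.card_le_two
    · rintro x ⟨hx, hxl⟩
      refine ⟨hx, Submodule.mem_span_pair.2 ⟨x α, x β, ?_⟩⟩
      funext l
      rw [hxl l]
      rfl
  · push Not at hj
    exfalso
    apply hinf
    have hsub : S'.Subsingleton := by
      intro x hx y hy
      funext l
      rw [hj l, (hS' hx).1, (hS' hy).1]
    exact hsub.finite

end Pool.Agent.Helper10.LV
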