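import Pool.Agent.Helper49.LG.GenLine
import Pool.Agent.Helper8.LV.KeyFun
import Pool.Agent.Helper10.LB.PolyD
import Pool.Agent.Helper8.LG.DirTwo

/-!
# LV-GL: lines and moving linear systems
-/

set_option autoImplicit false

namespace Pool.Agent.Helper10.LV

open scoped BigOperators
open Pool.Agent.Helper8.LG Pool.Agent.Helper8.LV Pool.Agent.Helper49.LG Pool.Agent.Helper10.LB

/-- **The killer derivation.** -/
theorem exists_killer_comb {E : Type*} [Field E] {σ ι τ κ : Type*} [Fintype σ] [DecidableEq σ]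
    [Fintype ι] [DecidableEq ι] [Fintype τ] [Fintype κ] (d : ι → ℕ)
    (a : (i : ι) → Sym σ (d i) → E) (D : Ix σ d → Derivation ℤ E E)
    (jj : τ → Ix σ d) (θ : τ → Ix σ d → E) (hD : Dual d a D jj θ) (α β : σ) (z : κ → E)
    (hcard : Fintype.card κ + Fintype.card τ < ∑ i, (d i + 1)) :
    ∃ (f : (i : ι) → Fin (d i + 1) → E) (δ : Derivation ℤ E E), (∃ i r, f i r ≠ 0) ∧
      (∀ m, δ (z m) = 0) ∧ (∀ y, (∀ s, D s y = 0) → δ y = 0) ∧
      ∀ (i : ι) (x : σ → E), (∀ l, δ (x l) = 0) →
        δ (form (a i) x) = ∑ r : Fin (d i + 1), f i r * (x α ^ (d i - r) * x β ^ (r : ℕ)) := by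
  classical
  set Λ : ((Σ i : ι, Fin (d i + 1)) → E) →ₗ[E] (κ ⊕ τ → E) :=
    { toFun := fun f => Sum.elim (fun m => ∑ s, f s * D (abi d α β s) (z m))
        fun j => ∑ s, f s * θ j (abi d α β s)
      map_add' := fun f g => by
        funext t
        rcases t with m | j <;> simp [add_mul, Finset.sum_add_distrib]
      map_smul' := fun c f => by
        funext t
        rcases t with m | j <;> simp [Finset.mul_sum, mul_assoc] } with hΛ
  have hker : LinearMap.ker Λ ≠ ⊥ := by
    apply LinearMap.ker_ne_bot_of_finrank_lt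
    rw [Module.finrank_fintype_fun_eq_card, Module.finrank_fintype_fun_eq_card, Fintype.card_sum,
      Fintype.card_sigma]
    simpa using hcard
  obtain ⟨f, hf, hf0⟩ := (Submodule.ne_bot_iff _).1 hker
  have hf1 : ∀ m, ∑ s, f s * D (abi d α β s) (z m) = 0 := fun m =>
    congrFun (LinearMap.mem_ker.1 hf) (Sum.inl m)
  have hf2 : ∀ j, ∑ s, f s * θ j (abi d α β s) = 0 := fun j =>
    congrFun (LinearMap.mem_ker.1 hf) (Sum.inr j)
  set δ : Derivation ℤ E E := ∑ s, f s • D (abi d α β s) with hδ
  have hδa : ∀ y, δ y = ∑ s, f s * D (abi d α β s) y := by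
    intro y
    have h1 : δ y = (Derivation.coeFnAddMonoidHom δ) y := rfl
    rw [h1, hδ, map_sum, Finset.sum_apply]
    rfl
  have hδq : ∀ q : Ix σ d, δ (a q.1 q.2) = ∑ s, if abi d α β s = q then f s else 0 := by
    intro q
    rw [hδa]
    have h1 : ∀ s, f s * D (abi d α β s) (a q.1 q.2) = (if abi d α β s = q then f s else 0) -
        ∑ j, if jj j = q then f s * θ j (abi d α β s) else 0 := by
      intro s
      rw [hD (abi d α β s) q, mul_sub, mul_ite, mul_one, mul_zero, Finset.mul_sum]
      congr 1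
      exact Finset.sum_congr rfl fun j _ => by rw [mul_ite, mul_zero]
    rw [Finset.sum_congr rfl fun s _ => h1 s, Finset.sum_sub_distrib, Finset.sum_comm]
    have h2 : ∑ j, ∑ s, (if jj j = q then f s * θ j (abi d α β s) else 0) = 0 := by
      refine Finset.sum_eq_zero fun j _ => ?_
      split_ifs
      · exact hf2 j
      · exact Finset.sum_const_zero
    rw [h2, sub_zero]
  refine ⟨fun i r => f ⟨i, r⟩, δ, ?_, fun m => by rw [hδa]; exact hf1 m, fun y hy => by
    rw [hδa]
    exact Finset.sum_eq_zero fun s _ => by rw [hy, mul_zero], ?_⟩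
  · by_contra h
    push Not at h
    exact hf0 (funext fun s => h s.1 s.2)
  · intro i x hx
    obtain ⟨g, hg, _⟩ := Pool.Agent.Helper8.LG.kf_grad_form (a i) x
    rw [hg δ, Finset.sum_eq_zero (s := Finset.univ) (f := fun l => g l * δ (x l))
      (fun l _ => by rw [hx, mul_zero]), add_zero]
    have h1 : ∀ J : Sym σ (d i), δ (a i J) * mon x J =
        ∑ s, if abi d α β s = ⟨i, J⟩ then f s * mon x J else 0 := by
      intro J
      rw [hδq ⟨i, J⟩, Finset.sum_mul]
      exact Finset.sum_congr rfl fun s _ => by rw [ite_mul, zero_mul]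
    rw [Finset.sum_congr rfl fun J _ => h1 J, Finset.sum_comm, ← Finset.univ_sigma_univ,
      Finset.sum_sigma, Finset.sum_eq_single i]
    · refine Finset.sum_congr rfl fun r _ => ?_
      rw [Finset.sum_eq_single (ab α β (d i) r)]
      · rw [if_pos (show abi d α β ⟨i, r⟩ = ⟨i, ab α β (d i) r⟩ from rfl), mon_ab]
      · intro J _ hJ
        rw [if_neg]
        intro h
        apply hJ
        unfold abi at h
        rw [Sigma.mk.injEq] at h
        exact (eq_of_heq h.2).symm
      · intro h
        exact absurd (Finset.mem_univ _) h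
    · intro i' _ hi'
      refine Finset.sum_eq_zero fun r _ => Finset.sum_eq_zero fun J _ => ?_
      rw [if_neg]
      intro h
      exact hi' (congrArg Sigma.fst h)
    · intro h
      exact absurd (Finset.mem_univ _) h

/-- **The killer derivation**, moving linear systems. -/
theorem exists_killer {E : Type*} [Field E] {σ ι τ κ : Type*} [Fintype σ] [DecidableEq σ]
    [Fintype ι] [DecidableEq ι] [Fintype τ] [Fintype κ] (d b q : ι → ℕ)
    (a aA : (i : ι) → Sym σ (d i) → E) (ap : (i : ι) → Sym σ (b i) → E)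
    (ah : (i : ι) → Sym σ (q i) → E) (D : Ix σ q → Derivation ℤ E E)
    (jj : τ → Ix σ q) (θ : τ → Ix σ q → E) (hD : Dual q ah D jj θ)
    (hM : Mov d b q a aA ap ah D) (α β : σ) (z : κ → E)
    (hcard : Fintype.card κ + Fintype.card τ < ∑ i, (q i + 1)) :
    ∃ (f : (i : ι) → Fin (q i + 1) → E) (δ : Derivation ℤ E E), (∃ i r, f i r ≠ 0) ∧
      (∀ m, δ (z m) = 0) ∧ ∀ (i : ι) (x : σ → E), (∀ l, δ (x l) = 0) →
        δ (form (a i) x) = form (ap i) x *
          ∑ r : Fin (q i + 1), f i r * (x α ^ (q i - r) * x β ^ (r : ℕ)) := by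
  obtain ⟨f, δ, hf, hz, hk, hform⟩ := exists_killer_comb q ah D jj θ hD α β z hcard
  refine ⟨f, δ, hf, hz, fun i x hx => ?_⟩
  have h1 : form (a i) x = form (aA i) x + form (ap i) x * form (ah i) x :=
    mov_form hM i x
  have h0 : ∀ (n : ℕ) (c : Sym σ n → E), (∀ J, δ (c J) = 0) → δ (form c x) = 0 := by
    intro n c hc
    obtain ⟨g, hg, _⟩ := Pool.Agent.Helper8.LG.kf_grad_form c x
    rw [hg δ, Finset.sum_eq_zero fun J _ => by rw [hc, zero_mul],
      Finset.sum_eq_zero fun l _ => by rw [hx, mul_zero], add_zero]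
  rw [h1, map_add, Derivation.leibniz, h0 _ _ fun J => hk _ fun s => hM.DA s i J,
    h0 _ _ fun J => hk _ fun s => hM.Dp s i J, hform i x hx, smul_zero, add_zero, zero_add,
    smul_eq_mul]

/-- a form which vanishes at the points `p + n p'` vanishes on the line -/
theorem line_zero {E : Type*} [Field E] [CharZero E] {σ : Type*} [Fintype σ] [DecidableEq σ]
    {n : ℕ} (a : Sym σ n → E) (p p' : σ → E)
    (h : ∀ m : ℕ, form a (fun l => p l + m * p' l) = 0) (x y : E) :
    form a (fun l => x * p l + y * p' l) = 0 := by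
  have h0 : lf a p p' = 0 := by
    refine Polynomial.eq_zero_of_infinite_isRoot _ ?_
    refine Set.infinite_of_injective_forall_mem (f := fun m : ℕ => (m : E)) Nat.cast_injective
      fun m => ?_
    show (lf a p p').eval (m : E) = 0
    rw [lf_eval]
    exact h m
  by_cases hx : x = 0
  · have h1 : form a p' = 0 := by rw [← lf_coeff_top a p p', h0, Polynomial.coeff_zero]
    have h2 : (fun l => x * p l + y * p' l) = fun l => y * p' l := by
      funext l
      rw [hx, zero_mul, zero_add]
    rw [h2, dirTwo_form_mul, h1, mul_zero]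
  · have h1 : form a (fun l => p l + y / x * p' l) = 0 := by
      rw [← lf_eval, h0, Polynomial.eval_zero]
    have h2 : (fun l => x * p l + y * p' l) = fun l => x * (p l + y / x * p' l) := by
      funext l
      field_simp
    rw [h2, dirTwo_form_mul, h1, mul_zero]

/-- a binary form times a form which is not zero on the line -/
theorem zero_of_nat_mul {E : Type*} [Field E] [CharZero E] {σ : Type*} [Fintype σ]
    [DecidableEq σ] {n : ℕ} (a : Sym σ n → E) (p p' : σ → E)
    (hP : ∃ x y : E, form a (fun l => x * p l + y * p' l) ≠ 0) (m : ℕ) (f : Fin (m + 1) → E)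
    (α β : σ) (hdet : p α * p' β - p β * p' α ≠ 0)
    (h : ∀ t : ℕ, form a (fun l => p l + t * p' l) *
      ∑ r : Fin (m + 1), f r * ((p α + t * p' α) ^ (m - r) * (p β + t * p' β) ^ (r : ℕ)) = 0)
    (r : Fin (m + 1)) : f r = 0 := by
  classical
  set φ : Polynomial E := ∑ r : Fin (m + 1), Polynomial.C (f r) *
    ((Polynomial.C (p α) + Polynomial.X * Polynomial.C (p' α)) ^ (m - r) *
      (Polynomial.C (p β) + Polynomial.X * Polynomial.C (p' β)) ^ (r : ℕ)) with hφ
  have hev : ∀ t : E, φ.eval t = ∑ r : Fin (m + 1),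
      f r * ((p α + t * p' α) ^ (m - r) * (p β + t * p' β) ^ (r : ℕ)) := by
    intro t
    rw [hφ, Polynomial.eval_finsetSum]
    simp only [Polynomial.eval_mul, Polynomial.eval_C, Polynomial.eval_pow, Polynomial.eval_add,
      Polynomial.eval_X]
  have h0 : lf a p p' * φ = 0 := by
    refine Polynomial.eq_zero_of_infinite_isRoot _ ?_
    refine Set.infinite_of_injective_forall_mem (f := fun t : ℕ => (t : E)) Nat.cast_injective
      fun t => ?_
    show (lf a p p' * φ).eval (t : E) = 0
    rw [Polynomial.eval_mul, lf_eval, hev]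
    exact h t
  rcases mul_eq_zero.1 h0 with h1 | h1
  · exfalso
    obtain ⟨x, y, hxy⟩ := hP
    apply hxy
    refine line_zero a p p' (fun t => ?_) x y
    rw [← lf_eval, h1, Polynomial.eval_zero]
  · refine zero_of_nat m f (p α) (p β) (p' α) (p' β) hdet (fun t => ?_) r
    rw [← hev, h1, Polynomial.eval_zero]

/-- The forms do not all vanish in at most two points of a line. -/
theorem no_two {E : Type*} [Field E] [CharZero E] {σ ι τ : Type*} [Fintype σ] [DecidableEq σ]
    [Fintype ι] [DecidableEq ι] [Fintype τ] (d b q : ι → ℕ)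
    (a aA : (i : ι) → Sym σ (d i) → E) (ap : (i : ι) → Sym σ (b i) → E)
    (ah : (i : ι) → Sym σ (q i) → E) (D : Ix σ q → Derivation ℤ E E)
    (jj : τ → Ix σ q) (θ : τ → Ix σ q → E) (hD : Dual q ah D jj θ)
    (hM : Mov d b q a aA ap ah D)
    (p p' : σ → E) (α β : σ) (hdet : p α * p' β - p β * p' α ≠ 0)
    (hP : ∀ i, ∃ x y : E, form (ap i) (fun l => x * p l + y * p' l) ≠ 0)
    (ip iq : σ) (hp : p ip = 1) (hq : p' iq = 1) (U : Finset ι) (e : ι → E) (c : ι → ℕ)
    (he : ∀ i ∉ U, e i = 0)
    (h : ∀ (i : ι) (n : ℕ), form (a i) (fun l => p l + n * p' l) = e i * (n : E) ^ c i)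
    (hcount : 2 * Fintype.card σ + U.card + Fintype.card τ < ∑ i, (q i + 1) + 2) : False := by
  classical
  have hcard : ∀ j : σ, Fintype.card {l : σ // l ≠ j} + 1 = Fintype.card σ := by
    intro j
    have h1 : Fintype.card {l : σ // l ≠ j} = Fintype.card σ - 1 := by
      rw [Fintype.card_subtype_compl (fun l => l = j)]
      simp
    have h2 : 0 < Fintype.card σ := Fintype.card_pos_iff.2 ⟨j⟩
    omega
  obtain ⟨f, δ, ⟨i, r, hfr⟩, hδ, hform⟩ := exists_killer d b q a aA ap ah D jj θ hD hM α β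
    (κ := ({l : σ // l ≠ ip} ⊕ {l : σ // l ≠ iq}) ⊕ U)
    (Sum.elim (Sum.elim (fun l => p l) fun l => p' l) fun i => e i) (by
      rw [Fintype.card_sum, Fintype.card_sum, Fintype.card_coe]
      have h1 := hcard ip
      have h2 := hcard iq
      omega)
  have hδp : ∀ l, δ (p l) = 0 := by
    intro l
    by_cases h1 : l = ip
    · rw [h1, hp, Derivation.map_one_eq_zero]
    · exact hδ (Sum.inl (Sum.inl ⟨l, h1⟩))
  have hδq : ∀ l, δ (p' l) = 0 := by
    intro l
    by_cases h1 : l = iq
    · rw [h1, hq, Derivation.map_one_eq_zero]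
    · exact hδ (Sum.inl (Sum.inr ⟨l, h1⟩))
  have hδe : ∀ i, δ (e i) = 0 := by
    intro i
    by_cases h1 : i ∈ U
    · exact hδ (Sum.inr ⟨i, h1⟩)
    · rw [he i h1, map_zero]
  apply hfr
  refine zero_of_nat_mul (ap i) p p' (hP i) (q i) (f i) α β hdet ?_ r
  intro n
  rw [← hform i (fun l => p l + n * p' l), h i n, Derivation.leibniz, hδe, smul_zero, add_zero]
  · have h1 : δ ((n : E) ^ c i) = 0 := by
      rw [Derivation.leibniz_pow, Derivation.map_natCast, smul_zero, smul_zero]
    rw [h1, smul_zero]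
  · intro l
    rw [map_add, hδp, zero_add, Derivation.leibniz, hδq, smul_zero, zero_add,
      Derivation.map_natCast, smul_zero]

end Pool.Agent.Helper10.LV
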