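import Mathlib

set_option autoImplicit false

namespace Pool.Agent.Helper10.LV

open NumberField MvPolynomial
open scoped Classical LinearAlgebra.Projectivization

section Field

variable {L : Type*} [Field L] {ι : Type*}

/-- Sup norm of a vector with respect to an absolute value. -/
noncomputable def nrm (w : AbsoluteValue L ℝ) (x : ι → L) : ℝ := ⨆ j, w (x j)

/-- The irrelevant ideal of the homogeneous coordinate ring of projective space. -/
noncomputable def irr (L ι : Type*) [Field L] : Ideal (MvPolynomial ι L) := Ideal.span (Set.range X)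

/-- The linear form `q a * X b - q b * X a` vanishing at `q`. -/
noncomputable def lf (q : ι → L) (p : ι × ι) : MvPolynomial ι L :=
  C (q p.1) * X p.2 - C (q p.2) * X p.1

/-- The homogeneous ideal of the point `q`. -/
noncomputable def ptIdeal (q : ι → L) : Ideal (MvPolynomial ι L) := Ideal.span (Set.range (lf q))

/-- The vector of the `2 x 2` minors of `(q, x)`; it vanishes exactly when `q` and `x` are
proportional. -/
def wedge (q x : ι → L) : ι × ι → L := fun p => q p.1 * x p.2 - q p.2 * x p.1

end Field

variable {K : Type*} [Field K] [NumberField K] {ι : Type*}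

/-- Extension of scalars of a vector to the algebraic closure. -/
noncomputable def up (x : ι → K) : ι → AlgebraicClosure K := fun i => algebraMap K _ (x i)

/-- Extension of scalars of a polynomial to the algebraic closure. -/
noncomputable def upP (f : MvPolynomial ι K) : MvPolynomial ι (AlgebraicClosure K) :=
  map (algebraMap K (AlgebraicClosure K)) f

/-- Field of definition over `K` of a point of projective space over the algebraic closure. -/
noncomputable def fieldOf (q : ℙ (AlgebraicClosure K) (ι → AlgebraicClosure K)) :
    IntermediateField K (AlgebraicClosure K) :=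
  IntermediateField.adjoin K (Set.range fun p : ι × ι => q.rep p.1 / q.rep p.2)

/-- The vector `x` lies on the closed subscheme `X` cut out by the forms in `J`. -/
def OnX (J : Set (MvPolynomial ι K)) (x : ι → K) : Prop := ∀ f ∈ J, eval x f = 0

/-- `q` is isolated from `X(K)`: with respect to every absolute value of the algebraic closure
extending an infinite place or a place in `S`, it is not a limit of points of `X(K)`. -/
def Isolated (S : Finset (FinitePlace K)) (J : Set (MvPolynomial ι K))
    (q : ℙ (AlgebraicClosure K) (ι → AlgebraicClosure K)) : Prop :=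
  ∀ W : AbsoluteValue (AlgebraicClosure K) ℝ,
    ((∃ v : InfinitePlace K, ∀ a : K, W (algebraMap K _ a) = v a) ∨
      ∃ v ∈ S, ∀ a : K, W (algebraMap K _ a) = v a) →
    ∃ c : ℝ, 0 < c ∧ ∀ x : ι → K, OnX J x → c * nrm W (up x) ≤ nrm W (wedge q.rep (up x))

/-- The intersection with `X` of the hypersurfaces `F i = 0`, `i ∈ I`, is contained (as a scheme,
in projective space over the algebraic closure) in the union of the `μ`-fold thickenings of the
points of `Q`. -/
def MeetCond {r : ℕ} (J : Set (MvPolynomial ι K)) (F : Fin r → MvPolynomial ι K)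
    (I : Finset (Fin r)) (Q : Finset (ℙ (AlgebraicClosure K) (ι → AlgebraicClosure K)))
    (μ : ℕ) : Prop :=
  ∃ M : ℕ, irr (AlgebraicClosure K) ι ^ M * ∏ q ∈ Q, ptIdeal q.rep ^ μ ≤
    Ideal.span (upP '' (F '' (I : Set (Fin r)) ∪ J))

/-- The form `E` vanishes to order at least `k` at `q` along `X`. -/
def VanishAt (J : Set (MvPolynomial ι K)) (q : ℙ (AlgebraicClosure K) (ι → AlgebraicClosure K))
    (k : ℕ) (E : MvPolynomial ι K) : Prop :=
  ∃ M : ℕ, irr (AlgebraicClosure K) ι ^ M * Ideal.span {upP E} ≤
    ptIdeal q.rep ^ k ⊔ Ideal.span (upP '' J)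

/-- `(D, S)`-integral sets of points, for `D` the union of the hypersurfaces `F i = 0`: up to
constants which are `1` at almost all places, every `F i` has the maximal possible absolute
value at all finite places outside `S`. -/
def IntegralSet {r : ℕ} (S : Finset (FinitePlace K)) (F : Fin r → MvPolynomial ι K)
    (d : Fin r → ℕ) (T : Set (ℙ K (ι → K))) : Prop :=
  ∃ c : FinitePlace K → ℝ, (∀ v, 0 < c v) ∧ {v | c v ≠ 1}.Finite ∧
    ∀ P ∈ T, ∀ i, eval P.rep (F i) ≠ 0 ∧
      ∀ v : FinitePlace K, v ∉ S → c v * (⨆ j, v (P.rep j)) ^ d i ≤ v (eval P.rep (F i))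

end Pool.Agent.Helper10.LV
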