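import Pool.Agent.Helper10.LV.Vanish

set_option autoImplicit false
set_option linter.unusedSectionVars false

namespace Pool.Agent.Helper10.LV

open MvPolynomial
open scoped Classical

section Exists

variable {K : Type*} [Field K] {Kb : Type*} [Field Kb] [Algebra K Kb] {ι : Type*} [Fintype ι]

/-- Exponents of degree `e`. -/
noncomputable def Bd (ι : Type*) [Fintype ι] (e : ℕ) : Finset (ι →₀ ℕ) :=
  (Finset.univ : Finset ι).finsuppAntidiag e

lemma mem_Bd {e : ℕ} {m : ι →₀ ℕ} : m ∈ Bd ι e ↔ m.degree = e := by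
  rw [Bd, Finset.mem_finsuppAntidiag, Finsupp.degree_eq_sum]
  simp

lemma card_Bd {n : ℕ} (hn : Fintype.card ι = n + 1) (e : ℕ) :
    (Bd ι e).card = (n + e).choose e := by
  rw [Bd, Finset.card_finsuppAntidiag_nat_eq_choose, Finset.card_univ, hn]
  congr 1
  omega

/-- Exponents of degree `e` whose `j`-th coordinate is large. -/
noncomputable def Ad (e k : ℕ) (j : ι) : Finset (ι →₀ ℕ) :=
  (Bd ι e).filter (fun m => e < m j + k)

lemma card_Ad {n : ℕ} (hn : Fintype.card ι = n + 1) {e k : ℕ} (hk : 1 ≤ k) (hke : k ≤ e + 1)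
    (j : ι) : (Ad e k j).card ≤ (n + (k - 1)).choose (k - 1) := by
  rw [← card_Bd hn (k - 1)]
  apply Finset.card_le_card_of_injOn (fun m => m - Finsupp.single j (e + 1 - k))
  · intro m hm
    simp only [Ad, Finset.coe_filter, Set.mem_ofPred_eq, mem_Bd] at hm
    rw [Finset.mem_coe, mem_Bd]
    change (m - Finsupp.single j (e + 1 - k)).degree = k - 1
    have h1 : Finsupp.single j (e + 1 - k) ≤ m := by
      rw [Finsupp.single_le_iff]
      omega
    have h2 : (m - Finsupp.single j (e + 1 - k)).degree + (Finsupp.single j (e + 1 - k)).degree =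
        m.degree := by
      rw [← map_add, tsub_add_cancel_of_le h1]
    rw [Finsupp.degree_single] at h2
    omega
  · intro m hm m' hm' h
    simp only [Ad, Finset.coe_filter, Set.mem_ofPred_eq, mem_Bd] at hm hm'
    have h1 : Finsupp.single j (e + 1 - k) ≤ m := by
      rw [Finsupp.single_le_iff]
      omega
    have h1' : Finsupp.single j (e + 1 - k) ≤ m' := by
      rw [Finsupp.single_le_iff]
      omega
    simp only at h
    rw [← tsub_add_cancel_of_le h1, h, tsub_add_cancel_of_le h1']

/-- The generic form of degree `e`. -/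
noncomputable def gen (e : ℕ) : (Bd ι e → K) →ₗ[K] MvPolynomial ι K where
  toFun c := ∑ m, monomial m.1 (c m)
  map_add' c c' := by
    simp [Finset.sum_add_distrib]
  map_smul' a c := by
    simp [Finset.smul_sum, smul_monomial]

lemma gen_hom (e : ℕ) (c : Bd ι e → K) : (gen e c : MvPolynomial ι K).IsHomogeneous e := by
  apply IsHomogeneous.sum
  intro m _
  exact isHomogeneous_monomial _ (mem_Bd.mp m.2)

lemma coeff_gen (e : ℕ) (c : Bd ι e → K) (m : Bd ι e) :
    coeff m.1 (gen e c : MvPolynomial ι K) = c m := by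
  have : (gen e c : MvPolynomial ι K) = ∑ m, monomial m.1 (c m) := rfl
  rw [this, coeff_sum]
  simp only [coeff_monomial]
  rw [Finset.sum_eq_single m]
  · simp
  · intro m' _ hne
    rw [if_neg]
    intro h
    exact hne (Subtype.ext h)
  · intro h; exact absurd (Finset.mem_univ _) h

lemma coeff_psi_mem (F : IntermediateField K Kb) (q : ι → Kb) (hq : ∀ i, q i ∈ F) (j : ι)
    (E : MvPolynomial ι K) (m : ι →₀ ℕ) :
    algebraMap F Kb (coeff m (psi (fun i => (⟨q i, hq i⟩ : F)) j E)) = coeff m (psi q j E) := by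
  have key : ((mapAlgHom (σ := ι) (R := K) (Algebra.ofId F Kb |>.restrictScalars K)).comp
      (psi (fun i => (⟨q i, hq i⟩ : F)) j) : MvPolynomial ι K →ₐ[K] MvPolynomial ι Kb) =
      psi q j := by
    apply MvPolynomial.algHom_ext
    intro i
    simp only [psi, AlgHom.comp_apply, aeval_X]
    split_ifs with h
    · simp
    · simp
  rw [← key]
  simp only [AlgHom.comp_apply, mapAlgHom_apply, coeff_map]
  rfl

/-- Existence of an auxiliary form vanishing to order `k` at given points, by linear algebra. -/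
theorem exists_form {n : ℕ} (hn : Fintype.card ι = n + 1) {τ : Type*} [Fintype τ]
    (q : τ → ι → Kb) (j : τ → ι) (Lf : τ → IntermediateField K Kb)
    (hL : ∀ a i, q a i ∈ Lf a) (hfd : ∀ a, FiniteDimensional K (Lf a)) (δ : ℕ)
    (hδ : ∀ a, Module.finrank K (Lf a) ≤ δ) (e k : ℕ) (hk : 1 ≤ k) (hke : k ≤ e + 1)
    (hcount : Fintype.card τ * ((n + (k - 1)).choose (k - 1) * δ) < (n + e).choose e) :
    ∃ E : MvPolynomial ι K, E ≠ 0 ∧ E.IsHomogeneous e ∧
      ∀ a, ∀ m : ι →₀ ℕ, m.degree = e → e < m (j a) + k → coeff m (psi (q a) (j a) E) = 0 := by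
  -- the linear conditions
  let Λ : (Bd ι e → K) →ₗ[K] (∀ a : τ, Ad e k (j a) → Lf a) :=
    LinearMap.pi fun a => LinearMap.pi fun m =>
      ((lcoeff (Lf a) m.1).restrictScalars K).comp
        ((psi (fun i => (⟨q a i, hL a i⟩ : Lf a)) (j a)).toLinearMap.comp (gen e))
  have hfin : Module.finrank K (∀ a : τ, Ad e k (j a) → Lf a) <
      Module.finrank K (Bd ι e → K) := by
    rw [Module.finrank_fintype_fun_eq_card, Fintype.card_coe, card_Bd hn, Module.finrank_pi_fintype]
    refine lt_of_le_of_lt ?_ hcount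
    calc ∑ a, Module.finrank K (Ad e k (j a) → Lf a)
        ≤ ∑ _a : τ, (n + (k - 1)).choose (k - 1) * δ := by
          apply Finset.sum_le_sum
          intro a _
          rw [Module.finrank_pi_fintype]
          simp only [Finset.sum_const, Finset.card_univ, Fintype.card_coe, smul_eq_mul]
          exact Nat.mul_le_mul (card_Ad hn hk hke (j a)) (hδ a)
      _ = Fintype.card τ * ((n + (k - 1)).choose (k - 1) * δ) := by
          simp
  have hker := LinearMap.ker_ne_bot_of_finrank_lt (f := Λ) hfin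
  obtain ⟨c, hc, hc0⟩ := Submodule.exists_mem_ne_zero_of_ne_bot hker
  refine ⟨gen e c, ?_, gen_hom e c, ?_⟩
  · intro h
    apply hc0
    ext m
    rw [← coeff_gen e c m, h, coeff_zero, Pi.zero_apply]
  · intro a m hm hmk
    have hmem : m ∈ Ad e k (j a) := by
      rw [Ad, Finset.mem_filter, mem_Bd]
      exact ⟨hm, hmk⟩
    have h1 := congrFun (congrFun (LinearMap.mem_ker.mp hc) a) ⟨m, hmem⟩
    have h2 : coeff m (psi (fun i => (⟨q a i, hL a i⟩ : Lf a)) (j a)
        (gen e c : MvPolynomial ι K)) = 0 := h1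
    rw [← coeff_psi_mem (Lf a) (q a) (hL a) (j a), h2, map_zero]

end Exists

end Pool.Agent.Helper10.LV
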