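import Pool.Agent.Helper10.LV.Places

set_option autoImplicit false

namespace Pool.Agent.Helper10.LV

open NumberField IsDedekindDomain

/-- Absolute value obtained from a multiplicative algebra norm. -/
noncomputable def ofMulAlgNorm {R L : Type*} [NontriviallyNormedField R] [Field L] [Algebra R L]
    (f : MulAlgebraNorm R L) : AbsoluteValue L ℝ where
  toFun x := f x
  map_mul' := map_mul f
  nonneg' x := apply_nonneg f x
  eq_zero' _ := map_eq_zero_iff_eq_zero f
  add_le' x y := map_add_le_add f x y

lemma ext_of_complete {K : Type*} [Field K] {R : Type*} [NontriviallyNormedField R]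
    [CompleteSpace R] [IsUltrametricDist R] (g : K →+* R) :
    ∃ W : AbsoluteValue (AlgebraicClosure K) ℝ, ∀ x : K,
      W (algebraMap K (AlgebraicClosure K) x) = ‖g x‖ := by
  let _ : Algebra K (AlgebraicClosure R) := ((algebraMap R (AlgebraicClosure R)).comp g).toAlgebra
  let φ : AlgebraicClosure K →ₐ[K] AlgebraicClosure R := IsAlgClosed.lift
  let f := spectralMulAlgNorm R (AlgebraicClosure R)
  refine ⟨(ofMulAlgNorm f).comp (f := φ.toRingHom) φ.toRingHom.injective, fun x => ?_⟩
  have h1 : φ (algebraMap K (AlgebraicClosure K) x) = algebraMap R (AlgebraicClosure R) (g x) := by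
    rw [φ.commutes]; rfl
  have h2 := spectralNorm_extends (K := R) (L := AlgebraicClosure R) (g x)
  change f (φ (algebraMap K (AlgebraicClosure K) x)) = _
  rw [h1]
  exact h2

variable {K : Type*} [Field K] [NumberField K]

lemma ext_finite (p : HeightOneSpectrum (𝓞 K)) :
    ∃ W : AbsoluteValue (AlgebraicClosure K) ℝ, ∀ x : K,
      W (algebraMap K (AlgebraicClosure K) x) = ‖FinitePlace.embedding p x‖ :=
  @ext_of_complete K _ (p.adicCompletion K)
    (Valued.toNontriviallyNormedField (p.adicCompletion K) _) inferInstance inferInstance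
    (FinitePlace.embedding p)

omit [NumberField K] in
lemma ext_infinite (v : InfinitePlace K) :
    ∃ W : AbsoluteValue (AlgebraicClosure K) ℝ, ∀ x : K,
      W (algebraMap K (AlgebraicClosure K) x) = v x := by
  let _ : Algebra K ℂ := v.embedding.toAlgebra
  let φ : AlgebraicClosure K →ₐ[K] ℂ := IsAlgClosed.lift
  refine ⟨(NormedField.toAbsoluteValue ℂ).comp (f := φ.toRingHom) φ.toRingHom.injective,
    fun x => ?_⟩
  have h1 : φ (algebraMap K (AlgebraicClosure K) x) = v.embedding x := by
    rw [φ.commutes]; rfl
  change ‖φ (algebraMap K (AlgebraicClosure K) x)‖ = _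
  rw [h1]
  exact v.norm_embedding_eq x

/-- Every place extends to an absolute value of the algebraic closure. -/
theorem exists_ext (w : Pl K) : ∃ W : AbsoluteValue (AlgebraicClosure K) ℝ, ∀ x : K,
    W (algebraMap K (AlgebraicClosure K) x) = av w x := by
  rcases w with v | v
  · exact ext_infinite v
  · obtain ⟨W, hW⟩ := ext_finite v.maximalIdeal
    refine ⟨W, fun x => ?_⟩
    rw [hW, FinitePlace.norm_embedding_eq]
    rfl

end Pool.Agent.Helper10.LV
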