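import Pool.Agent.Helper10.LV.Places

set_option autoImplicit false
set_option linter.unusedSectionVars false

namespace Pool.Agent.Helper10.LV

open MvPolynomial
open scoped Classical LinearAlgebra.Projectivization

section Local

variable {L : Type*} [Field L] {ι : Type*} [Fintype ι]

lemma eval_smul_hom {e : ℕ} {p : MvPolynomial ι L} (hp : p.IsHomogeneous e) (a : L) (x : ι → L) :
    eval (a • x) p = a ^ e * eval x p := by
  rw [eval_eq, eval_eq, Finset.mul_sum]
  apply Finset.sum_congr rfl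
  intro s hs
  rw [hp.degree_eq_sum_deg_support hs]
  simp only [Pi.smul_apply, smul_eq_mul, mul_pow, Finset.prod_mul_distrib]
  rw [Finset.prod_pow_eq_pow_sum]
  ring

lemma eval_lf (q x : ι → L) (p : ι × ι) : eval x (lf q p) = wedge q x p := by
  simp [lf, wedge]

lemma wedge_smul (a : L) (q x : ι → L) : wedge q (a • x) = a • wedge q x := by
  ext p
  simp [wedge]
  ring

variable (w : AbsoluteValue L ℝ)

lemma bound_disc (a : MvPolynomial ι L) :
    ∃ C : ℝ, 0 ≤ C ∧ ∀ x : ι → L, (∀ j, w (x j) ≤ 1) → w (eval x a) ≤ C := by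
  induction a using MvPolynomial.induction_on with
  | C r => exact ⟨w r, w.nonneg r, fun x _ => by simp⟩
  | add p q hp hq =>
    obtain ⟨C1, h1, h1'⟩ := hp
    obtain ⟨C2, h2, h2'⟩ := hq
    refine ⟨C1 + C2, add_nonneg h1 h2, fun x hx => ?_⟩
    rw [map_add]
    exact (w.add_le _ _).trans (add_le_add (h1' x hx) (h2' x hx))
  | mul_X p i hp =>
    obtain ⟨C1, h1, h1'⟩ := hp
    refine ⟨C1, h1, fun x hx => ?_⟩
    rw [map_mul, map_mul, eval_X]
    calc w (eval x p) * w (x i) ≤ C1 * 1 :=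
          mul_le_mul (h1' x hx) (hx i) (w.nonneg _) h1
      _ = C1 := mul_one _

lemma span_bound {α : Type*} (F : α → MvPolynomial ι L) (I : Finset α)
    (J : Set (MvPolynomial ι L)) (f : MvPolynomial ι L)
    (hf : f ∈ Ideal.span (F '' (I : Set α) ∪ J)) :
    ∃ C : ℝ, 0 ≤ C ∧ ∀ x : ι → L, (∀ j, w (x j) ≤ 1) → (∀ g ∈ J, eval x g = 0) →
      ∀ M : ℝ, 0 ≤ M → (∀ i ∈ I, w (eval x (F i)) ≤ M) → w (eval x f) ≤ C * M := by
  induction hf using Submodule.span_induction with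
  | mem y hy =>
    rcases hy with ⟨i, hi, rfl⟩ | hy
    · exact ⟨1, zero_le_one, fun x _ _ M _ h => by rw [one_mul]; exact h i hi⟩
    · exact ⟨0, le_rfl, fun x _ hJ M _ _ => by rw [hJ y hy]; simp⟩
  | zero => exact ⟨0, le_rfl, fun x _ _ M _ _ => by simp⟩
  | add y z _ _ hy hz =>
    obtain ⟨C1, h1, h1'⟩ := hy
    obtain ⟨C2, h2, h2'⟩ := hz
    refine ⟨C1 + C2, add_nonneg h1 h2, fun x hx hJ M hM h => ?_⟩
    rw [map_add, add_mul]
    exact (w.add_le _ _).trans (add_le_add (h1' x hx hJ M hM h) (h2' x hx hJ M hM h))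
  | smul a y _ hy =>
    obtain ⟨C1, h1, h1'⟩ := hy
    obtain ⟨C2, h2, h2'⟩ := bound_disc w a
    refine ⟨C2 * C1, mul_nonneg h2 h1, fun x hx hJ M hM h => ?_⟩
    rw [smul_eq_mul, map_mul, map_mul, mul_assoc]
    exact mul_le_mul (h2' x hx) (h1' x hx hJ M hM h) (w.nonneg _) h2

variable [Nonempty ι]

/-- Uniform bound for products of linear forms through the points of `Q`. -/
lemma prod_bound {α : Type*} (F : α → MvPolynomial ι L) (I : Finset α)
    (J : Set (MvPolynomial ι L))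
    (Q : Finset (ℙ L (ι → L))) (μ M₀ : ℕ)
    (h : irr L ι ^ M₀ * ∏ q ∈ Q, ptIdeal q.rep ^ μ ≤ Ideal.span (F '' (I : Set α) ∪ J)) :
    ∃ C : ℝ, 0 < C ∧ ∀ x : ι → L, (∀ j, w (x j) ≤ 1) → (∃ j, w (x j) = 1) →
      (∀ g ∈ J, eval x g = 0) → ∀ M : ℝ, 0 ≤ M → (∀ i ∈ I, w (eval x (F i)) ≤ M) →
      ∏ q ∈ Q, nrm w (wedge q.rep x) ^ μ ≤ C * M := by
  have hmem : ∀ (j : ι) (f : {q // q ∈ Q} → ι × ι),
      X j ^ M₀ * ∏ q : {q // q ∈ Q}, lf q.1.rep (f q) ^ μ ∈
        Ideal.span (F '' (I : Set α) ∪ J) := by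
    intro j f
    apply h
    apply Ideal.mul_mem_mul
    · exact Ideal.pow_mem_pow (Ideal.subset_span (Set.mem_range_self j)) _
    · rw [← Finset.prod_coe_sort Q (fun q => ptIdeal q.rep ^ μ)]
      apply Ideal.prod_mem_prod
      intro q _
      exact Ideal.pow_mem_pow (Ideal.subset_span (Set.mem_range_self (f q))) _
  choose C hC0 hC using fun (p : ι × ({q // q ∈ Q} → ι × ι)) =>
    span_bound w F I J _ (hmem p.1 p.2)
  refine ⟨1 + ∑ p, C p, ?_, ?_⟩
  · have : 0 ≤ ∑ p, C p := Finset.sum_nonneg fun p _ => hC0 p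
    linarith
  · intro x hx hx1 hJ M hM hF
    obtain ⟨j, hj⟩ := hx1
    choose f hf using fun q : {q // q ∈ Q} => exists_eq_nrm w (wedge q.1.rep x)
    have h1 := hC (j, f) x hx hJ M hM hF
    rw [map_mul, map_mul, map_pow, map_pow, eval_X, hj, one_pow, one_mul, map_prod, map_prod] at h1
    have h2 : ∏ q ∈ Q, nrm w (wedge q.rep x) ^ μ =
        ∏ q : {q // q ∈ Q}, w (eval x (lf q.1.rep (f q) ^ μ)) := by
      rw [← Finset.prod_coe_sort Q (fun q => nrm w (wedge q.rep x) ^ μ)]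
      apply Finset.prod_congr rfl
      intro q _
      rw [map_pow, map_pow, eval_lf, hf]
    rw [h2]
    refine h1.trans ?_
    apply mul_le_mul_of_nonneg_right _ hM
    have h3 : C (j, f) ≤ ∑ p, C p :=
      Finset.single_le_sum (fun p _ => hC0 p) (Finset.mem_univ (j, f))
    linarith

/-- Two distinct points cannot both be close to `x`. -/
lemma separation {q q' : ℙ L (ι → L)} (hqq : q ≠ q') :
    ∃ c : ℝ, 0 < c ∧ ∀ x : ι → L, (∃ j, w (x j) = 1) →
      c ≤ nrm w (wedge q.rep x) ∨ c ≤ nrm w (wedge q'.rep x) := by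
  -- some minor of `(q, q')` does not vanish
  obtain ⟨a, b, hab⟩ : ∃ a b : ι, q.rep a * q'.rep b - q.rep b * q'.rep a ≠ 0 := by
    by_contra hcon
    push Not at hcon
    apply hqq
    obtain ⟨a, ha⟩ := Function.ne_iff.mp q.rep_nonzero
    rw [← q.mk_rep, ← q'.mk_rep, Projectivization.mk_eq_mk_iff']
    simp only [Pi.zero_apply] at ha
    have ha' : q'.rep a ≠ 0 := by
      intro h0
      apply q'.rep_nonzero
      ext b
      have := hcon a b
      rw [h0, mul_zero, sub_zero] at this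
      exact (mul_eq_zero.mp this).resolve_left ha
    refine ⟨q.rep a / q'.rep a, ?_⟩
    ext b
    have := hcon a b
    simp only [Pi.smul_apply, smul_eq_mul]
    field_simp
    linear_combination this
  set m : L := q.rep a * q'.rep b - q.rep b * q'.rep a with hm
  have hm0 : 0 < w m := w.pos hab
  set B : ℝ := 1 + nrm w q.rep + nrm w q'.rep with hB
  have hB0 : 0 < B := by
    have h1 := nrm_nonneg w q.rep
    have h2 := nrm_nonneg w q'.rep
    linarith
  refine ⟨w m / (3 * B), by positivity, ?_⟩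
  rintro x ⟨j, hj⟩
  by_contra hcon
  push Not at hcon
  obtain ⟨h1, h2⟩ := hcon
  have hid : x j * m = q.rep j * (wedge q'.rep x (b, a)) + (wedge q.rep x (a, j)) * q'.rep b -
      (wedge q.rep x (b, j)) * q'.rep a := by
    simp only [wedge, hm]
    ring
  have e1 : w (wedge q'.rep x (b, a)) < w m / (3 * B) := (le_nrm w _ (b, a)).trans_lt h2
  have e2 : w (wedge q.rep x (a, j)) < w m / (3 * B) := (le_nrm w _ (a, j)).trans_lt h1
  have e3 : w (wedge q.rep x (b, j)) < w m / (3 * B) := (le_nrm w _ (b, j)).trans_lt h1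
  have f1 : w (q.rep j) ≤ B := by
    have := le_nrm w q.rep j
    have h2 := nrm_nonneg w q'.rep
    linarith
  have f2 : w (q'.rep b) ≤ B := by
    have := le_nrm w q'.rep b
    have h2 := nrm_nonneg w q.rep
    linarith
  have f3 : w (q'.rep a) ≤ B := by
    have := le_nrm w q'.rep a
    have h2 := nrm_nonneg w q.rep
    linarith
  have key : w m < w m := by
    calc w m = w (x j * m) := by rw [map_mul, hj, one_mul]
      _ = w (q.rep j * (wedge q'.rep x (b, a)) + (wedge q.rep x (a, j)) * q'.rep b -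
          (wedge q.rep x (b, j)) * q'.rep a) := by rw [hid]
      _ ≤ w (q.rep j * (wedge q'.rep x (b, a)) + (wedge q.rep x (a, j)) * q'.rep b) +
          w ((wedge q.rep x (b, j)) * q'.rep a) := by
            rw [sub_eq_add_neg]
            refine (w.add_le _ _).trans ?_
            rw [w.map_neg]
      _ ≤ w (q.rep j * (wedge q'.rep x (b, a))) + w ((wedge q.rep x (a, j)) * q'.rep b) +
          w ((wedge q.rep x (b, j)) * q'.rep a) := by
            gcongr
            exact w.add_le _ _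
      _ = w (q.rep j) * w (wedge q'.rep x (b, a)) + w (wedge q.rep x (a, j)) * w (q'.rep b) +
          w (wedge q.rep x (b, j)) * w (q'.rep a) := by
            rw [map_mul, map_mul, map_mul]
      _ ≤ B * w (wedge q'.rep x (b, a)) + w (wedge q.rep x (a, j)) * B +
          w (wedge q.rep x (b, j)) * B := by
            gcongr
      _ < B * (w m / (3 * B)) + w m / (3 * B) * B + w m / (3 * B) * B := by
            gcongr
      _ = w m := by field_simp; ring
  exact lt_irrefl _ key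

/-- The local inequality: where the forms `F i`, `i ∈ I`, are simultaneously small, `x` is close
to one of the points of `Q`. -/
theorem local_ineq {α : Type*} (F : α → MvPolynomial ι L) (d : α → ℕ)
    (hF : ∀ i, (F i).IsHomogeneous (d i)) (I : Finset α) (hI : I.Nonempty)
    (J : Set (MvPolynomial ι L)) (hJhom : ∀ g ∈ J, ∃ e, g.IsHomogeneous e)
    (Q : Finset (ℙ L (ι → L))) (μ M₀ : ℕ)
    (h : irr L ι ^ M₀ * ∏ q ∈ Q, ptIdeal q.rep ^ μ ≤ Ideal.span (F '' (I : Set α) ∪ J)) :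
    ∃ c : ℝ, 0 < c ∧ ∀ x : ι → L, x ≠ 0 → (∀ g ∈ J, eval x g = 0) → ∃ i ∈ I,
      c ≤ w (eval x (F i)) / nrm w x ^ d i ∨
      ∃ q ∈ Q, c * (nrm w (wedge q.rep x) / nrm w x) ^ μ ≤ w (eval x (F i)) / nrm w x ^ d i := by
  obtain ⟨C, hC0, hC⟩ := prod_bound w F I J Q μ M₀ h
  -- uniform separation constant
  have hsep : ∃ c : ℝ, 0 < c ∧ ∀ q ∈ Q, ∀ q' ∈ Q, q ≠ q' → ∀ x : ι → L, (∃ j, w (x j) = 1) →
      c ≤ nrm w (wedge q.rep x) ∨ c ≤ nrm w (wedge q'.rep x) := by
    have hex : ∀ p : (ℙ L (ι → L)) × (ℙ L (ι → L)), ∃ c : ℝ, 0 < c ∧ (p.1 ≠ p.2 →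
        ∀ x : ι → L, (∃ j, w (x j) = 1) →
        c ≤ nrm w (wedge p.1.rep x) ∨ c ≤ nrm w (wedge p.2.rep x)) := by
      intro p
      by_cases hp : p.1 = p.2
      · exact ⟨1, one_pos, fun h => absurd hp h⟩
      · obtain ⟨c, h1, h2⟩ := separation w hp
        exact ⟨c, h1, fun _ => h2⟩
    choose c hc0 hc using hex
    by_cases hQ : (Q ×ˢ Q).Nonempty
    · obtain ⟨p₀, hp₀, hmin⟩ := (Q ×ˢ Q).exists_min_image c hQ
      refine ⟨c p₀, hc0 p₀, fun q hq q' hq' hne x hx => ?_⟩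
      have h1 := hmin (q, q') (Finset.mk_mem_product hq hq')
      rcases hc (q, q') hne x hx with h2 | h2
      · exact Or.inl (h1.trans h2)
      · exact Or.inr (h1.trans h2)
    · refine ⟨1, one_pos, fun q hq q' hq' _ _ _ => ?_⟩
      exact absurd ⟨(q, q'), Finset.mk_mem_product hq hq'⟩ hQ
  obtain ⟨s, hs0, hs⟩ := hsep
  set s' : ℝ := min s 1 with hs'
  have hs'0 : 0 < s' := lt_min hs0 one_pos
  have hs'1 : s' ≤ 1 := min_le_right _ _
  refine ⟨(s' ^ μ) ^ Q.card / C, by positivity, ?_⟩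
  intro x hx hxJ
  -- normalise `x`
  obtain ⟨j₀, hj₀⟩ := exists_eq_nrm w x
  have hn : 0 < nrm w x := nrm_pos w hx
  have hxj : x j₀ ≠ 0 := by
    intro h0
    rw [h0, map_zero] at hj₀
    exact absurd hj₀ hn.ne
  set y : ι → L := (x j₀)⁻¹ • x with hy
  have hyj : ∀ j, w (y j) ≤ 1 := by
    intro j
    rw [hy, Pi.smul_apply, smul_eq_mul, map_mul, map_inv₀, hj₀, inv_mul_le_iff₀ hn, mul_one]
    exact le_nrm w x j
  have hyj₀ : ∃ j, w (y j) = 1 := by
    refine ⟨j₀, ?_⟩
    rw [hy, Pi.smul_apply, smul_eq_mul, inv_mul_cancel₀ hxj, map_one]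
  -- the largest value
  obtain ⟨i, hiI, himax⟩ := I.exists_max_image (fun i => w (eval y (F i))) hI
  have hval : ∀ i, w (eval y (F i)) = w (eval x (F i)) / nrm w x ^ d i := by
    intro i
    rw [hy, eval_smul_hom (hF i), map_mul, map_pow, map_inv₀, hj₀, inv_pow, inv_mul_eq_div]
  have hwedge : ∀ q : ℙ L (ι → L), nrm w (wedge q.rep y) = nrm w (wedge q.rep x) / nrm w x := by
    intro q
    rw [hy, wedge_smul, nrm_smul, map_inv₀, hj₀, inv_mul_eq_div]
  have hyJ : ∀ g ∈ J, eval y g = 0 := by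
    intro g hg
    obtain ⟨e, he⟩ := hJhom g hg
    rw [hy, eval_smul_hom he, hxJ g hg, mul_zero]
  have hmain := hC y hyj hyj₀ hyJ (w (eval y (F i))) (w.nonneg _) himax
  refine ⟨i, hiI, ?_⟩
  rw [← hval i]
  by_cases hfar : ∀ q ∈ Q, s' ≤ nrm w (wedge q.rep y)
  · left
    rw [div_le_iff₀ hC0, mul_comm]
    refine le_trans ?_ hmain
    calc (s' ^ μ) ^ Q.card = ∏ _q ∈ Q, s' ^ μ := by rw [Finset.prod_const]
      _ ≤ ∏ q ∈ Q, nrm w (wedge q.rep y) ^ μ :=
          Finset.prod_le_prod (fun _ _ => by positivity)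
            (fun q hq => pow_le_pow_left₀ hs'0.le (hfar q hq) μ)
  · right
    push Not at hfar
    obtain ⟨q₀, hq₀, hq₀'⟩ := hfar
    refine ⟨q₀, hq₀, ?_⟩
    rw [← hwedge q₀]
    have hother : ∀ q ∈ Q.erase q₀, s' ≤ nrm w (wedge q.rep y) := by
      intro q hq
      obtain ⟨hne, hqQ⟩ := Finset.mem_erase.mp hq
      rcases hs q hqQ q₀ hq₀ hne y hyj₀ with h1 | h1
      · exact (min_le_left _ _).trans h1
      · exact absurd (lt_of_lt_of_le hq₀' ((min_le_left _ _).trans h1)) (lt_irrefl _)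
    have h3 : (s' ^ μ) ^ Q.card ≤ ∏ q ∈ Q.erase q₀, nrm w (wedge q.rep y) ^ μ := by
      calc (s' ^ μ) ^ Q.card ≤ (s' ^ μ) ^ (Q.erase q₀).card := by
            apply pow_le_pow_of_le_one (by positivity) (pow_le_one₀ hs'0.le hs'1)
            exact Finset.card_le_card (Finset.erase_subset _ _)
        _ = ∏ _q ∈ Q.erase q₀, s' ^ μ := by rw [Finset.prod_const]
        _ ≤ ∏ q ∈ Q.erase q₀, nrm w (wedge q.rep y) ^ μ :=
            Finset.prod_le_prod (fun _ _ => by positivity)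
              (fun q hq => pow_le_pow_left₀ hs'0.le (hother q hq) μ)
    rw [← Finset.mul_prod_erase Q _ hq₀] at hmain
    have hn0 : 0 ≤ nrm w (wedge q₀.rep y) ^ μ := pow_nonneg (nrm_nonneg _ _) _
    rw [div_mul_eq_mul_div, div_le_iff₀ hC0, mul_comm (w _) C]
    calc (s' ^ μ) ^ Q.card * nrm w (wedge q₀.rep y) ^ μ
        ≤ (∏ q ∈ Q.erase q₀, nrm w (wedge q.rep y) ^ μ) * nrm w (wedge q₀.rep y) ^ μ :=
          mul_le_mul_of_nonneg_right h3 hn0
      _ = nrm w (wedge q₀.rep y) ^ μ * ∏ q ∈ Q.erase q₀, nrm w (wedge q.rep y) ^ μ :=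
          mul_comm _ _
      _ ≤ _ := hmain

/-- Bound for the elements of a power of the ideal of a point. -/
lemma ptpow_bound (q : ι → L) (k : ℕ) (f : MvPolynomial ι L) (hf : f ∈ ptIdeal q ^ k) :
    ∃ C : ℝ, 0 ≤ C ∧ ∀ x : ι → L, (∀ j, w (x j) ≤ 1) →
      w (eval x f) ≤ C * nrm w (wedge q x) ^ k := by
  induction k generalizing f with
  | zero =>
    obtain ⟨C, hC, h⟩ := bound_disc w f
    exact ⟨C, hC, fun x hx => by rw [pow_zero, mul_one]; exact h x hx⟩
  | succ k ih =>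
    rw [pow_succ] at hf
    induction hf using Submodule.mul_induction_on' with
    | mem_mul_mem a ha b hb =>
      obtain ⟨C1, h1, h1'⟩ := ih a ha
      have hb' : ∃ C : ℝ, 0 ≤ C ∧ ∀ x : ι → L, (∀ j, w (x j) ≤ 1) →
          w (eval x b) ≤ C * nrm w (wedge q x) := by
        clear h1' h1 ha
        induction hb using Submodule.span_induction with
        | mem y hy =>
          obtain ⟨p, rfl⟩ := hy
          refine ⟨1, zero_le_one, fun x _ => ?_⟩
          rw [eval_lf, one_mul]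
          exact le_nrm w (wedge q x) p
        | zero => exact ⟨0, le_rfl, fun x _ => by simp⟩
        | add y z _ _ hy hz =>
          obtain ⟨C1, h1, h1'⟩ := hy
          obtain ⟨C2, h2, h2'⟩ := hz
          refine ⟨C1 + C2, add_nonneg h1 h2, fun x hx => ?_⟩
          rw [map_add, add_mul]
          exact (w.add_le _ _).trans (add_le_add (h1' x hx) (h2' x hx))
        | smul a y _ hy =>
          obtain ⟨C1, h1, h1'⟩ := hy
          obtain ⟨C2, h2, h2'⟩ := bound_disc w a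
          refine ⟨C2 * C1, mul_nonneg h2 h1, fun x hx => ?_⟩
          rw [smul_eq_mul, map_mul, map_mul, mul_assoc]
          exact mul_le_mul (h2' x hx) (h1' x hx) (w.nonneg _) h2
      obtain ⟨C2, h2, h2'⟩ := hb'
      refine ⟨C1 * C2, mul_nonneg h1 h2, fun x hx => ?_⟩
      rw [map_mul, map_mul]
      have h3 : 0 ≤ nrm w (wedge q x) := nrm_nonneg _ _
      calc w (eval x a) * w (eval x b)
          ≤ (C1 * nrm w (wedge q x) ^ k) * (C2 * nrm w (wedge q x)) :=
            mul_le_mul (h1' x hx) (h2' x hx) (w.nonneg _) (by positivity)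
        _ = C1 * C2 * nrm w (wedge q x) ^ (k + 1) := by ring
    | add y _ z _ hy hz =>
      obtain ⟨C1, h1, h1'⟩ := hy
      obtain ⟨C2, h2, h2'⟩ := hz
      refine ⟨C1 + C2, add_nonneg h1 h2, fun x hx => ?_⟩
      rw [map_add, add_mul]
      exact (w.add_le _ _).trans (add_le_add (h1' x hx) (h2' x hx))

lemma eval_span_zero (J : Set (MvPolynomial ι L)) {x : ι → L} (hx : ∀ g ∈ J, eval x g = 0)
    {f : MvPolynomial ι L} (hf : f ∈ Ideal.span J) : eval x f = 0 := by
  induction hf using Submodule.span_induction with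
  | mem y hy => exact hx y hy
  | zero => exact map_zero _
  | add y z _ _ hy hz => rw [map_add, hy, hz, add_zero]
  | smul a y _ hy => rw [smul_eq_mul, map_mul, hy, mul_zero]

/-- Estimate for forms vanishing at a point along a subscheme. -/
theorem vanish_along (q : ι → L) {e k M : ℕ} (J : Set (MvPolynomial ι L))
    (hJhom : ∀ g ∈ J, ∃ e, g.IsHomogeneous e) {E : MvPolynomial ι L} (hE : E.IsHomogeneous e)
    (h : irr L ι ^ M * Ideal.span {E} ≤ ptIdeal q ^ k ⊔ Ideal.span J) :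
    ∃ C : ℝ, 0 < C ∧ ∀ x : ι → L, x ≠ 0 → (∀ g ∈ J, eval x g = 0) →
      w (eval x E) / nrm w x ^ e ≤ C * (nrm w (wedge q x) / nrm w x) ^ k := by
  have hj : ∀ j : ι, ∃ C : ℝ, 0 ≤ C ∧ ∀ x : ι → L, (∀ j, w (x j) ≤ 1) →
      (∀ g ∈ J, eval x g = 0) → w (eval x (X j ^ M * E)) ≤ C * nrm w (wedge q x) ^ k := by
    intro j
    have hmem : X j ^ M * E ∈ ptIdeal q ^ k ⊔ Ideal.span J := by
      apply h
      apply Ideal.mul_mem_mul
      · exact Ideal.pow_mem_pow (Ideal.subset_span (Set.mem_range_self j)) _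
      · exact Ideal.mem_span_singleton_self E
    obtain ⟨a, ha, b, hb, hab⟩ := Submodule.mem_sup.mp hmem
    obtain ⟨C, hC, h1⟩ := ptpow_bound w q k a ha
    refine ⟨C, hC, fun x hx hJ => ?_⟩
    rw [← hab, map_add, eval_span_zero J hJ hb, add_zero]
    exact h1 x hx
  choose C hC0 hC using hj
  refine ⟨1 + ∑ j, C j, ?_, ?_⟩
  · have : 0 ≤ ∑ j, C j := Finset.sum_nonneg fun j _ => hC0 j
    linarith
  intro x hx hxJ
  obtain ⟨j₀, hj₀⟩ := exists_eq_nrm w x
  have hn : 0 < nrm w x := nrm_pos w hx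
  have hxj : x j₀ ≠ 0 := by
    intro h0
    rw [h0, map_zero] at hj₀
    exact absurd hj₀ hn.ne
  set y : ι → L := (x j₀)⁻¹ • x with hy
  have hyj : ∀ j, w (y j) ≤ 1 := by
    intro j
    rw [hy, Pi.smul_apply, smul_eq_mul, map_mul, map_inv₀, hj₀, inv_mul_le_iff₀ hn, mul_one]
    exact le_nrm w x j
  have hyj₀ : y j₀ = 1 := by
    rw [hy, Pi.smul_apply, smul_eq_mul, inv_mul_cancel₀ hxj]
  have hyJ : ∀ g ∈ J, eval y g = 0 := by
    intro g hg
    obtain ⟨e, he⟩ := hJhom g hg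
    rw [hy, eval_smul_hom he, hxJ g hg, mul_zero]
  have hval : w (eval y E) = w (eval x E) / nrm w x ^ e := by
    rw [hy, eval_smul_hom hE, map_mul, map_pow, map_inv₀, hj₀, inv_pow, inv_mul_eq_div]
  have hwedge : nrm w (wedge q y) = nrm w (wedge q x) / nrm w x := by
    rw [hy, wedge_smul, nrm_smul, map_inv₀, hj₀, inv_mul_eq_div]
  have h1 := hC j₀ y hyj hyJ
  rw [map_mul, map_pow, eval_X, hyj₀, one_pow, one_mul] at h1
  rw [← hval, ← hwedge]
  refine h1.trans ?_
  apply mul_le_mul_of_nonneg_right _ (pow_nonneg (nrm_nonneg _ _) _)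
  have : C j₀ ≤ ∑ j, C j := Finset.single_le_sum (fun j _ => hC0 j) (Finset.mem_univ j₀)
  linarith

end Local

end Pool.Agent.Helper10.LV
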