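import Pool.Agent.Helper10.LV.Local

set_option autoImplicit false
set_option linter.unusedSectionVars false

namespace Pool.Agent.Helper10.LV

open NumberField MvPolynomial
open scoped Classical

/-- Choice of the degree `e` and the order of vanishing `k`. -/
lemma exists_ek {n D μ N : ℕ} (hμ : 1 ≤ μ) (hN : 1 ≤ N) (h : N * μ ^ n < D ^ n) :
    ∃ e k : ℕ, 1 ≤ k ∧ k ≤ e + 1 ∧ μ * e < k * D ∧
      N * (n + (k - 1)).choose (k - 1) < (n + e).choose e := by
  have hμD : μ < D := by
    by_contra hcon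
    push Not at hcon
    have h1 : D ^ n ≤ μ ^ n := Nat.pow_le_pow_left hcon n
    have h2 : μ ^ n ≤ N * μ ^ n := Nat.le_mul_of_pos_left _ hN
    omega
  -- a large integer `t`
  obtain ⟨t, ht1, ht⟩ : ∃ t : ℕ, 1 ≤ t ∧ N * (μ * t + n) ^ n < (D * t) ^ n := by
    have hlim : Filter.Tendsto (fun t : ℕ => (N : ℝ) * ((μ : ℝ) + (n : ℝ) / (t : ℝ)) ^ n)
        Filter.atTop (nhds ((N : ℝ) * ((μ : ℝ) + 0) ^ n)) :=
      ((tendsto_const_div_atTop_nhds_zero_nat (n : ℝ)).const_add _ |>.pow n).const_mul _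
    rw [add_zero] at hlim
    have hlt : (N : ℝ) * (μ : ℝ) ^ n < (D : ℝ) ^ n := by exact_mod_cast h
    have hev := (hlim.eventually (gt_mem_nhds hlt)).and (Filter.eventually_ge_atTop 1)
    obtain ⟨t, ht, ht1⟩ := hev.exists
    refine ⟨t, ht1, ?_⟩
    have htpos : (0 : ℝ) < t := by exact_mod_cast ht1
    have h2 : (N : ℝ) * ((μ : ℝ) * t + n) ^ n < ((D : ℝ) * t) ^ n := by
      have e1 : ((μ : ℝ) * t + n) = ((μ : ℝ) + (n : ℝ) / t) * t := by
        field_simp
      rw [e1, mul_pow, mul_pow, ← mul_assoc]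
      exact mul_lt_mul_of_pos_right ht (pow_pos htpos n)
    exact_mod_cast h2
  have hDt : 1 ≤ D * t := Nat.mul_pos (by omega) ht1
  refine ⟨D * t - 1, μ * t, Nat.mul_pos hμ ht1, ?_, ?_, ?_⟩
  · rw [Nat.sub_add_cancel hDt]
    exact Nat.mul_le_mul_right t hμD.le
  · have h1 : μ * (D * t - 1) + μ = μ * t * D := by
      obtain ⟨u, hu⟩ : ∃ u, D * t = u + 1 := ⟨D * t - 1, by omega⟩
      rw [hu, Nat.add_sub_cancel]
      have : μ * t * D = μ * (D * t) := by ring
      rw [this, hu]; ring
    omega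
  · have hk1 : μ * t - 1 + 1 = μ * t := Nat.sub_add_cancel (Nat.mul_pos hμ ht1)
    have hc1 : n.factorial * (n + (μ * t - 1)).choose (μ * t - 1) ≤ (μ * t + n) ^ n := by
      have h1 := Nat.ascFactorial_le_pow_add (μ * t - 1) n
      rw [Nat.ascFactorial_eq_factorial_mul_choose] at h1
      have h2 : (n + (μ * t - 1)).choose (μ * t - 1) = (μ * t - 1 + n).choose n := by
        rw [add_comm n, Nat.choose_symm_add]
      rw [h2]
      refine h1.trans (Nat.pow_le_pow_left (by omega) n)
    have hc2 : (D * t) ^ n ≤ n.factorial * (n + (D * t - 1)).choose (D * t - 1) := by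
      have h1 := Nat.pow_succ_le_ascFactorial (D * t - 1 + 1) n
      rw [Nat.ascFactorial_eq_factorial_mul_choose] at h1
      have h2 : (n + (D * t - 1)).choose (D * t - 1) = (D * t - 1 + n).choose n := by
        rw [add_comm n, Nat.choose_symm_add]
      rw [h2]
      rwa [Nat.sub_add_cancel hDt] at h1
    have hfac : 0 < n.factorial := Nat.factorial_pos n
    have h3 : n.factorial * (N * (n + (μ * t - 1)).choose (μ * t - 1)) <
        n.factorial * (n + (D * t - 1)).choose (D * t - 1) := by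
      calc n.factorial * (N * (n + (μ * t - 1)).choose (μ * t - 1))
          = N * (n.factorial * (n + (μ * t - 1)).choose (μ * t - 1)) := by ring
        _ ≤ N * (μ * t + n) ^ n := Nat.mul_le_mul_left N hc1
        _ < (D * t) ^ n := ht
        _ ≤ _ := hc2
    exact Nat.lt_of_mul_lt_mul_left h3

variable {K : Type*} [Field K] [NumberField K] {ι : Type*} [Fintype ι] [Nonempty ι]

/-- Local constants bounding the values of a form. -/
lemma exists_LC {e : ℕ} {E : MvPolynomial ι K} (hE : E.IsHomogeneous e) :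
    ∃ c : LC K, ∀ (v : FinitePlace K) (x : ι → K), v.val (eval x E) ≤ c.c v * nrm v.val x ^ e := by
  have hfin : (⋃ s : E.support, {v : FinitePlace K | v (coeff s.1 E) ≠ 1}).Finite :=
    Set.finite_iUnion fun s => finite_ne_one (mem_support_iff.mp s.2)
  refine ⟨⟨fun v => max 1 (⨆ s : E.support, v.val (coeff s.1 E)), fun v => ?_, ?_⟩, ?_⟩
  · exact lt_of_lt_of_le one_pos (le_max_left _ _)
  · apply hfin.subset
    intro v hv
    by_contra hcon
    apply hv
    simp only [Set.mem_iUnion, Set.mem_ofPred_eq, not_exists, not_not] at hcon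
    apply max_eq_left
    rcases isEmpty_or_nonempty E.support with he | he
    · rw [Real.iSup_of_isEmpty]; exact zero_le_one
    · apply ciSup_le
      intro s
      exact (hcon s).le
  · intro v x
    have hna : IsNonarchimedean v.val := FinitePlace.add_le v
    have h1 := IsNonarchimedean.eval_mvPolynomial_le hna hE x
    refine h1.trans ?_
    apply mul_le_mul_of_nonneg_right (le_max_right _ _) (pow_nonneg (nrm_nonneg _ _) _)

/-- Crude local bound for the values of a form. -/
lemma exists_bound {L : Type*} [Field L] (w : AbsoluteValue L ℝ) {e : ℕ} {E : MvPolynomial ι L}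
    (hE : E.IsHomogeneous e) : ∃ C : ℝ, 0 < C ∧ ∀ x : ι → L, x ≠ 0 →
      w (eval x E) / nrm w x ^ e ≤ C := by
  refine ⟨1 + (AddMonoidAlgebra.coeff E).sum (fun _ c => w c), ?_, ?_⟩
  · have : 0 ≤ (AddMonoidAlgebra.coeff E).sum (fun _ c => w c) :=
      Finset.sum_nonneg fun _ _ => w.nonneg _
    linarith
  · intro x hx
    rw [div_le_iff₀ (pow_pos (nrm_pos w hx) e)]
    refine (AbsoluteValue.eval_mvPolynomial_le w hE x).trans ?_
    apply mul_le_mul_of_nonneg_right _ (pow_nonneg (nrm_nonneg _ _) _)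
    linarith

end Pool.Agent.Helper10.LV
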