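import Pool.Agent.Helper10.LV.Places

set_option autoImplicit false

namespace Pool.Agent.Helper10.LV

open NumberField
open scoped LinearAlgebra.Projectivization

variable {K : Type*} [Field K] [NumberField K] {ι : Type*} [Fintype ι]

/-- Northcott's theorem for projective space. -/
theorem proj_northcott (B : ℝ) : {P : ℙ K (ι → K) | Height.mulHeight P.rep ≤ B}.Finite := by
  classical
  have hfin : ∀ j : ι, {P : ℙ K (ι → K) | P.rep j ≠ 0 ∧ Height.mulHeight P.rep ≤ B}.Finite := by
    intro j
    have hpi : (Set.pi Set.univ (fun _ : ι => {z : K | Height.mulHeight₁ z ≤ B})).Finite :=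
      Set.Finite.pi fun _ => NumberField.finite_setOfPred_mulHeight₁_le K B
    refine Set.Finite.of_finite_image (f := fun P : ℙ K (ι → K) => fun i => P.rep i / P.rep j)
      (hpi.subset ?_) ?_
    · rintro _ ⟨P, ⟨_, hP⟩, rfl⟩ i _
      simp only [Set.mem_ofPred_eq]
      rw [Height.mulHeight₁_div_eq_mulHeight]
      have h1 : (![P.rep i, P.rep j] : Fin 2 → K) = P.rep ∘ ![i, j] := by
        ext k
        fin_cases k <;> rfl
      rw [h1]
      exact (Height.mulHeight_comp_le _ _).trans hP
    · rintro P ⟨hPj, _⟩ P' ⟨hPj', _⟩ h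
      rw [← P.mk_rep, ← P'.mk_rep, Projectivization.mk_eq_mk_iff']
      refine ⟨P.rep j / P'.rep j, ?_⟩
      ext i
      have := congrFun h i
      simp only at this
      rw [Pi.smul_apply, smul_eq_mul]
      field_simp at this ⊢
      rw [this]
  have hun : {P : ℙ K (ι → K) | Height.mulHeight P.rep ≤ B} ⊆
      ⋃ j : ι, {P : ℙ K (ι → K) | P.rep j ≠ 0 ∧ Height.mulHeight P.rep ≤ B} := by
    intro P hP
    obtain ⟨j, hj⟩ := Function.ne_iff.mp P.rep_nonzero
    exact Set.mem_iUnion.mpr ⟨j, hj, hP⟩
  exact (Set.finite_iUnion hfin).subset hun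

end Pool.Agent.Helper10.LV
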