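import Pool.Agent.Helper10.LV.Exists
import Pool.Agent.Helper10.LV.Ext
import Pool.Agent.Helper10.LV.ProjNorthcott
import Pool.Agent.Helper10.LV.Numeric

set_option autoImplicit false
set_option linter.unusedSectionVars false

namespace Pool.Agent.Helper10.LV

open NumberField MvPolynomial
open scoped Classical LinearAlgebra.Projectivization

variable {K : Type*} [Field K] [NumberField K] {ι : Type*} [Fintype ι]

lemma up_ne_zero {x : ι → K} (hx : x ≠ 0) : up x ≠ 0 := by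
  intro h
  apply hx
  ext i
  have := congrFun h i
  simpa [up] using this

lemma eval_up (x : ι → K) (E : MvPolynomial ι K) :
    eval (up x) (upP E) = algebraMap K _ (eval x E) := by
  rw [upP, eval_map]
  exact (eval₂_comp_left (algebraMap K (AlgebraicClosure K)) (RingHom.id K) x E).symm

lemma upP_hom {E : MvPolynomial ι K} {e : ℕ} (hE : E.IsHomogeneous e) :
    (upP E).IsHomogeneous e := hE.map _

lemma upP_J_hom {J : Set (MvPolynomial ι K)} (hJ : ∀ g ∈ J, ∃ e, g.IsHomogeneous e) :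
    ∀ g ∈ upP '' J, ∃ e, g.IsHomogeneous e := by
  rintro _ ⟨g, hg, rfl⟩
  obtain ⟨e, he⟩ := hJ g hg
  exact ⟨e, upP_hom he⟩

lemma upP_J_zero {J : Set (MvPolynomial ι K)} {x : ι → K} (hx : OnX J x) :
    ∀ g ∈ upP '' J, eval (up x) g = 0 := by
  rintro _ ⟨g, hg, rfl⟩
  rw [eval_up, hx g hg, map_zero]

lemma over_of_mem {S : Finset (FinitePlace K)} {v : Pl K} (hv : v ∈ Om S)
    {W : AbsoluteValue (AlgebraicClosure K) ℝ}
    (hW : ∀ x : K, W (algebraMap K (AlgebraicClosure K) x) = av v x) :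
    (∃ v : InfinitePlace K, ∀ a : K, W (algebraMap K _ a) = v a) ∨
      ∃ v ∈ S, ∀ a : K, W (algebraMap K _ a) = v a := by
  rcases v with v | v
  · exact Or.inl ⟨v, hW⟩
  · refine Or.inr ⟨v, ?_, hW⟩
    simpa [Om] using hv

variable {r : ℕ} [Nonempty ι]

lemma prod_min_le {α : Type*} (s : Finset α) (f : α → ℝ) (hf : ∀ a ∈ s, 0 < f a) {a : α}
    (ha : a ∈ s) : ∏ b ∈ s, min 1 (f b) ≤ f a := by
  rw [← Finset.mul_prod_erase s _ ha]
  have h1 : ∏ b ∈ s.erase a, min 1 (f b) ≤ 1 :=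
    Finset.prod_le_one (fun b hb => (lt_min one_pos (hf b (Finset.mem_of_mem_erase hb))).le)
      (fun b _ => min_le_left _ _)
  calc min 1 (f a) * ∏ b ∈ s.erase a, min 1 (f b) ≤ f a * 1 :=
        mul_le_mul (min_le_right _ _) h1
          (Finset.prod_nonneg fun b hb => (lt_min one_pos (hf b (Finset.mem_of_mem_erase hb))).le)
          (hf a ha).le
    _ = f a := mul_one _

lemma prod_min_pos {α : Type*} (s : Finset α) (f : α → ℝ) (hf : ∀ a ∈ s, 0 < f a) :
    0 < ∏ b ∈ s, min 1 (f b) :=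
  Finset.prod_pos fun b hb => lt_min one_pos (hf b hb)

lemma nrm_up (W : AbsoluteValue (AlgebraicClosure K) ℝ) (v : Pl K)
    (hW : ∀ x : K, W (algebraMap K (AlgebraicClosure K) x) = av v x) (x : ι → K) :
    nrm W (up x) = nrm (av v) x := by
  unfold nrm up
  simp only [hW]

/-- Data attached to one set of indices and one place. -/
lemma local_data_one (S : Finset (FinitePlace K)) (J : Set (MvPolynomial ι K))
    (hJ : ∀ g ∈ J, ∃ e, g.IsHomogeneous e) (F : Fin r → MvPolynomial ι K) (d : Fin r → ℕ)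
    (hF : ∀ i, (F i).IsHomogeneous (d i)) (μ : ℕ) (I : Finset (Fin r)) (hI : I.Nonempty)
    (Q : Finset (ℙ (AlgebraicClosure K) (ι → AlgebraicClosure K)))
    (hQ : MeetCond J F I Q μ)
    (W : AbsoluteValue (AlgebraicClosure K) ℝ) (v : Pl K) (hv : v ∈ Om S)
    (hW : ∀ x : K, W (algebraMap K (AlgebraicClosure K) x) = av v x) :
    ∃ c : ℝ, 0 < c ∧ ∀ x : ι → K, x ≠ 0 → OnX J x → ∃ i ∈ I,
        c ≤ av v (eval x (F i)) / nrm (av v) x ^ d i ∨
        ∃ q ∈ Q.filter (fun q => ¬ Isolated S J q),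
          c * (nrm W (wedge q.rep (up x)) / nrm (av v) x) ^ μ ≤
          av v (eval x (F i)) / nrm (av v) x ^ d i := by
  obtain ⟨M, hM⟩ := hQ
  have himg : upP '' (F '' (I : Set (Fin r)) ∪ J) =
      (fun i => upP (F i)) '' (I : Set (Fin r)) ∪ upP '' J := by
    rw [Set.image_union, Set.image_image]
  rw [himg] at hM
  obtain ⟨c₀, hc₀, h₀⟩ := local_ineq W
    (fun i => upP (F i)) d (fun i => upP_hom (hF i)) I hI (upP '' J) (upP_J_hom hJ) Q μ M hM
  have hex : ∀ q : ℙ (AlgebraicClosure K) (ι → AlgebraicClosure K), ∃ f : ℝ, 0 < f ∧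
      (Isolated S J q →
        ∀ x : ι → K, OnX J x → f * nrm W (up x) ≤ nrm W (wedge q.rep (up x))) := by
    intro q
    by_cases hq : Isolated S J q
    · obtain ⟨c, hc, h'⟩ := hq W (over_of_mem hv hW)
      exact ⟨c, hc, fun _ => h'⟩
    · exact ⟨1, one_pos, fun h => absurd h hq⟩
  choose f hf0 hf using hex
  have hpos : ∀ q ∈ Q, 0 < f q ^ μ := fun q _ => pow_pos (hf0 q) μ
  refine ⟨c₀ * ∏ q ∈ Q, min 1 (f q ^ μ), mul_pos hc₀ (prod_min_pos Q _ hpos), ?_⟩
  intro x hx hxJ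
  obtain ⟨i, hi, h⟩ := h₀ (up x) (up_ne_zero hx) (upP_J_zero hxJ)
  simp only [eval_up, hW, nrm_up W v hW] at h
  have hle1 : ∏ q ∈ Q, min 1 (f q ^ μ) ≤ 1 :=
    Finset.prod_le_one (fun b hb => (lt_min one_pos (hpos b hb)).le) (fun b _ => min_le_left _ _)
  have hN : 0 < nrm (av v) x := nrm_pos _ hx
  refine ⟨i, hi, ?_⟩
  rcases h with h | ⟨q, hq, h⟩
  · left
    refine le_trans ?_ h
    calc c₀ * ∏ q ∈ Q, min 1 (f q ^ μ) ≤ c₀ * 1 := by gcongr
      _ = c₀ := mul_one _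
  · by_cases hgood : ¬ Isolated S J q
    · right
      refine ⟨q, Finset.mem_filter.mpr ⟨hq, hgood⟩, le_trans ?_ h⟩
      have h2 : 0 ≤ (nrm W (wedge q.rep (up x)) / nrm (av v) x) ^ μ :=
        pow_nonneg (div_nonneg (nrm_nonneg _ _) hN.le) _
      calc c₀ * (∏ q ∈ Q, min 1 (f q ^ μ)) * (nrm W (wedge q.rep (up x)) / nrm (av v) x) ^ μ
          ≤ c₀ * 1 * (nrm W (wedge q.rep (up x)) / nrm (av v) x) ^ μ := by gcongr
        _ = _ := by rw [mul_one]
    · left
      rw [not_not] at hgood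
      refine le_trans ?_ h
      have h3 := hf q hgood x hxJ
      rw [nrm_up W v hW] at h3
      have h4 : f q ≤ nrm W (wedge q.rep (up x)) / nrm (av v) x := by
        rwa [le_div_iff₀ hN]
      have h5 := prod_min_le Q (fun q => f q ^ μ) hpos hq
      calc c₀ * ∏ q ∈ Q, min 1 (f q ^ μ) ≤ c₀ * f q ^ μ := by gcongr
        _ ≤ c₀ * (nrm W (wedge q.rep (up x)) / nrm (av v) x) ^ μ := by
            have := (hf0 q).le
            gcongr

/-- Data attached to the whole situation. -/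
lemma local_data (S : Finset (FinitePlace K)) (J : Set (MvPolynomial ι K))
    (hJ : ∀ g ∈ J, ∃ e, g.IsHomogeneous e) (F : Fin r → MvPolynomial ι K) (d : Fin r → ℕ)
    (hF : ∀ i, (F i).IsHomogeneous (d i)) (m μ : ℕ)
    (Q : Finset (ℙ (AlgebraicClosure K) (ι → AlgebraicClosure K)))
    (hmeet : ∀ I : Finset (Fin r), I.card = m + 1 → MeetCond J F I Q μ)
    (W : Pl K → AbsoluteValue (AlgebraicClosure K) ℝ)
    (hW : ∀ v, ∀ x : K, W v (algebraMap K (AlgebraicClosure K) x) = av v x) :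
    ∃ c : ℝ, 0 < c ∧
      ∀ v ∈ Om S, ∀ x : ι → K, x ≠ 0 → OnX J x → ∀ I : Finset (Fin r), I.card = m + 1 → ∃ i ∈ I,
        c ≤ av v (eval x (F i)) / nrm (av v) x ^ d i ∨
        ∃ q ∈ Q.filter (fun q => ¬ Isolated S J q),
          c * (nrm (W v) (wedge q.rep (up x)) / nrm (av v) x) ^ μ ≤
          av v (eval x (F i)) / nrm (av v) x ^ d i := by
  have hex : ∀ p : Finset (Fin r) × Pl K, ∃ c : ℝ, 0 < c ∧ (p.1.card = m + 1 → p.2 ∈ Om S →
      ∀ x : ι → K, x ≠ 0 → OnX J x → ∃ i ∈ p.1,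
        c ≤ av p.2 (eval x (F i)) / nrm (av p.2) x ^ d i ∨
        ∃ q ∈ Q.filter (fun q => ¬ Isolated S J q),
          c * (nrm (W p.2) (wedge q.rep (up x)) / nrm (av p.2) x) ^ μ ≤
          av p.2 (eval x (F i)) / nrm (av p.2) x ^ d i) := by
    rintro ⟨I, v⟩
    by_cases hI : I.card = m + 1
    · by_cases hv : v ∈ Om S
      · obtain ⟨c, hc, h⟩ := local_data_one S J hJ F d hF μ I
          (Finset.card_pos.mp (by omega)) Q (hmeet I hI) (W v) v hv (hW v)
        exact ⟨c, hc, fun _ _ => h⟩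
      · exact ⟨1, one_pos, fun _ h => absurd h hv⟩
    · exact ⟨1, one_pos, fun h => absurd h hI⟩
  choose c hc0 hc using hex
  set A : Finset (Finset (Fin r) × Pl K) := Finset.univ ×ˢ Om S with hA
  have hpos : ∀ p ∈ A, 0 < c p := fun p _ => hc0 p
  refine ⟨∏ p ∈ A, min 1 (c p), prod_min_pos A c hpos, ?_⟩
  intro v hv x hx hxJ I hI
  have hmem : (I, v) ∈ A := by
    rw [hA, Finset.mem_product]
    exact ⟨Finset.mem_univ _, hv⟩
  have hle := prod_min_le A c hpos hmem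
  obtain ⟨i, hi, h⟩ := hc (I, v) hI hv x hx hxJ
  refine ⟨i, hi, ?_⟩
  rcases h with h | ⟨q, hq, h⟩
  · exact Or.inl (hle.trans h)
  · right
    refine ⟨q, hq, le_trans ?_ h⟩
    have h2 : 0 ≤ (nrm (W v) (wedge q.rep (up x)) / nrm (av v) x) ^ μ :=
      pow_nonneg (div_nonneg (nrm_nonneg _ _) (nrm_nonneg _ _)) _
    gcongr

/-- Some index is not small at any place of `S`. -/
lemma good_index (S : Finset (FinitePlace K)) (F : Fin r → MvPolynomial ι K) (d : Fin r → ℕ)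
    (m μ : ℕ) (hr : m * (Om S).card < r)
    (W : Pl K → AbsoluteValue (AlgebraicClosure K) ℝ)
    (G : Finset (ℙ (AlgebraicClosure K) (ι → AlgebraicClosure K))) (c : ℝ)
    (x : ι → K)
    (h : ∀ v ∈ Om S, ∀ I : Finset (Fin r), I.card = m + 1 → ∃ i ∈ I,
        c ≤ av v (eval x (F i)) / nrm (av v) x ^ d i ∨
        ∃ q ∈ G, c * (nrm (W v) (wedge q.rep (up x)) / nrm (av v) x) ^ μ ≤
          av v (eval x (F i)) / nrm (av v) x ^ d i) :
    ∃ i : Fin r, ∀ v ∈ Om S,
        c ≤ av v (eval x (F i)) / nrm (av v) x ^ d i ∨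
        ∃ q ∈ G, c * (nrm (W v) (wedge q.rep (up x)) / nrm (av v) x) ^ μ ≤
          av v (eval x (F i)) / nrm (av v) x ^ d i := by
  by_contra hcon
  push Not at hcon
  -- bad indices at `v`
  set Bad : Pl K → Finset (Fin r) := fun v => Finset.univ.filter fun i =>
    ¬ (c ≤ av v (eval x (F i)) / nrm (av v) x ^ d i ∨
        ∃ q ∈ G, c * (nrm (W v) (wedge q.rep (up x)) / nrm (av v) x) ^ μ ≤
          av v (eval x (F i)) / nrm (av v) x ^ d i) with hBad
  have hcard : ∀ v ∈ Om S, (Bad v).card ≤ m := by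
    intro v hv
    by_contra hlt
    push Not at hlt
    obtain ⟨I, hIsub, hIcard⟩ := Finset.exists_subset_card_eq (s := Bad v) (n := m + 1) hlt
    obtain ⟨i, hi, hi'⟩ := h v hv I hIcard
    exact (Finset.mem_filter.mp (hIsub hi)).2 hi'
  have hcover : (Finset.univ : Finset (Fin r)) ⊆ (Om S).biUnion Bad := by
    intro i _
    obtain ⟨v, hv, h1, h2⟩ := hcon i
    rw [Finset.mem_biUnion]
    refine ⟨v, hv, ?_⟩
    rw [hBad, Finset.mem_filter]
    refine ⟨Finset.mem_univ _, ?_⟩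
    rintro (h3 | ⟨q, hq, h3⟩)
    · exact absurd h3 (not_le.mpr h1)
    · exact absurd h3 (not_le.mpr (h2 q hq))
  have h1 := Finset.card_le_card hcover
  rw [Finset.card_univ, Fintype.card_fin] at h1
  have h2 : ((Om S).biUnion Bad).card ≤ (Om S).card * m :=
    Finset.card_biUnion_le_card_mul _ _ _ hcard
  have h3 : (Om S).card * m = m * (Om S).card := mul_comm _ _
  omega

end Pool.Agent.Helper10.LV
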