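import Pool.Agent.Helper10.LV.Upper

set_option autoImplicit false
set_option linter.unusedSectionVars false

namespace Pool.Agent.Helper10.LV

open NumberField MvPolynomial
open scoped Classical LinearAlgebra.Projectivization

variable {K : Type*} [Field K] [NumberField K] {ι : Type*} [Fintype ι] [Nonempty ι]

instance fieldOf_finiteDimensional (q : ℙ (AlgebraicClosure K) (ι → AlgebraicClosure K)) :
    FiniteDimensional K (fieldOf q) := by
  unfold fieldOf
  have : Finite (Set.range fun p : ι × ι => q.rep p.1 / q.rep p.2) := Set.finite_range _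
  apply IntermediateField.finiteDimensional_adjoin
  intro x _
  exact Algebra.IsIntegral.isIntegral x

lemma ratio_mem_fieldOf (q : ℙ (AlgebraicClosure K) (ι → AlgebraicClosure K)) (i j : ι) :
    q.rep i / q.rep j ∈ fieldOf q :=
  IntermediateField.subset_adjoin K _ ⟨(i, j), rfl⟩

/-- A nonvanishing coordinate. -/
noncomputable def nz (q : ℙ (AlgebraicClosure K) (ι → AlgebraicClosure K)) : ι :=
  (Function.ne_iff.mp q.rep_nonzero).choose

lemma nz_spec (q : ℙ (AlgebraicClosure K) (ι → AlgebraicClosure K)) : q.rep (nz q) ≠ 0 :=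
  (Function.ne_iff.mp q.rep_nonzero).choose_spec

/-- Auxiliary form for a prescribed pattern of nearby points. -/
lemma aux_form (S : Finset (FinitePlace K)) {n : ℕ} (hn : Fintype.card ι = n + 1) (δ : ℕ)
    (G : Finset (ℙ (AlgebraicClosure K) (ι → AlgebraicClosure K)))
    (hG : ∀ q ∈ G, Module.finrank K (fieldOf q) ≤ δ)
    (W : Pl K → AbsoluteValue (AlgebraicClosure K) ℝ)
    (hW : ∀ v, ∀ x : K, W v (algebraMap K (AlgebraicClosure K) x) = av v x)
    {e k : ℕ} (hk : 1 ≤ k) (hke : k ≤ e + 1)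
    (hcount : (Om S).card * δ * (n + (k - 1)).choose (k - 1) < (n + e).choose e)
    (f : {v // v ∈ Om S} → Option {q // q ∈ G}) :
    ∃ (E : MvPolynomial ι K) (C : ℝ), E ≠ 0 ∧ E.IsHomogeneous e ∧ 0 < C ∧
      ∀ x : ι → K, x ≠ 0 → eval x E ≠ 0 → 1 ≤ C * RR S W x f ^ k * Height.mulHeight x ^ e := by
  -- the pattern
  let τ := {v : {v // v ∈ Om S} // (f v).isSome}
  let pt : τ → ℙ (AlgebraicClosure K) (ι → AlgebraicClosure K) := fun a => ((f a.1).get a.2).1
  have hcard : Fintype.card τ ≤ (Om S).card := by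
    rw [← Fintype.card_coe (Om S)]
    exact Fintype.card_subtype_le _
  obtain ⟨E, hE0, hE, hvan⟩ := exists_form (K := K) (Kb := AlgebraicClosure K) hn
    (fun a : τ => fun i => (pt a).rep i / (pt a).rep (nz (pt a))) (fun a => nz (pt a))
    (fun a => fieldOf (pt a)) (fun a i => ratio_mem_fieldOf _ _ _) (fun a => inferInstance) δ
    (fun a => hG _ ((f a.1).get a.2).2) e k hk hke (by
      calc Fintype.card τ * ((n + (k - 1)).choose (k - 1) * δ)
          ≤ (Om S).card * ((n + (k - 1)).choose (k - 1) * δ) := Nat.mul_le_mul_right _ hcard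
        _ = (Om S).card * δ * (n + (k - 1)).choose (k - 1) := by ring
        _ < _ := hcount)
  -- local bounds
  have hloc : ∀ v : {v // v ∈ Om S}, ∃ C : ℝ, 0 < C ∧ ∀ x : ι → K, x ≠ 0 →
      av v.1 (eval x E) / nrm (av v.1) x ^ e ≤ C * rr W x v.1 (f v) ^ k := by
    intro v
    rcases hfv : f v with _ | q
    · obtain ⟨C, hC, h⟩ := exists_bound (av v.1) hE
      exact ⟨C, hC, fun x hx => by simpa [rr] using h x hx⟩
    · let a : τ := ⟨v, by rw [hfv]; rfl⟩
      have hpt : pt a = q.1 := by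
        simp only [pt, a, hfv, Option.get_some]
      obtain ⟨C, hC, h⟩ := vanish_est (W v.1) (pt a).rep (nz (pt a)) (nz_spec (pt a)) hE (hvan a)
      refine ⟨C, hC, fun x hx => ?_⟩
      have h1 := h x hx
      rw [hW, hpt] at h1
      have h2 : nrm (W v.1) (fun i => algebraMap K (AlgebraicClosure K) (x i)) =
        nrm (av v.1) x := nrm_up (W v.1) v.1 (hW v.1) x
      rw [h2] at h1
      exact h1
  choose C hC hloc using hloc
  obtain ⟨c, hc⟩ := exists_LC (K := K) hE
  refine ⟨E, (∏ v : {v // v ∈ Om S}, C v ^ mt v.1) * c.tot, hE0, hE,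
    mul_pos (Finset.prod_pos fun v _ => pow_pos (hC v) _) (lt_of_lt_of_le one_pos c.one_le_tot), ?_⟩
  intro x hx hne
  have h1 := global_lower (S := S) hx hne e c (fun v _ => hc v x)
  refine h1.trans ?_
  have hH := Height.mulHeight_pos x
  have hct : 0 < c.tot := lt_of_lt_of_le one_pos c.one_le_tot
  have h2 : ∏ w ∈ Om S, ra w (eval x E) x e ≤
      (∏ v : {v // v ∈ Om S}, C v ^ mt v.1) * RR S W x f ^ k := by
    rw [RR, ← Finset.prod_pow, ← Finset.prod_mul_distrib,
      ← Finset.prod_coe_sort (Om S) (fun w => ra w (eval x E) x e)]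
    apply Finset.prod_le_prod
    · intro v _
      exact ra_nonneg _ _ _ _
    · intro v _
      unfold ra
      calc (av v.1 (eval x E) / nrm (av v.1) x ^ e) ^ mt v.1
          ≤ (C v * rr W x v.1 (f v) ^ k) ^ mt v.1 := by
            apply pow_le_pow_left₀ _ (hloc v x hx)
            exact div_nonneg ((av v.1).nonneg _) (pow_nonneg (nrm_nonneg _ _) _)
        _ = _ := by rw [mul_pow, ← pow_mul, ← pow_mul, mul_comm (mt v.1) k]
  calc (∏ w ∈ Om S, ra w (eval x E) x e) * c.tot * Height.mulHeight x ^ e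
      ≤ ((∏ v : {v // v ∈ Om S}, C v ^ mt v.1) * RR S W x f ^ k) * c.tot *
        Height.mulHeight x ^ e := by gcongr
    _ = _ := by ring

/-- A nonzero linear form vanishing at a given point. -/
lemma exists_linear {n : ℕ} (hn : Fintype.card ι = n + 1) (hn1 : 1 ≤ n) (P : ℙ K (ι → K)) :
    ∃ E : MvPolynomial ι K, E ≠ 0 ∧ E.IsHomogeneous 1 ∧ eval P.rep E = 0 := by
  obtain ⟨a, ha⟩ := Function.ne_iff.mp P.rep_nonzero
  have : Nontrivial ι := by
    rw [← Fintype.one_lt_card_iff_nontrivial, hn]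
    omega
  obtain ⟨b, hb⟩ := exists_ne a
  refine ⟨lf P.rep (a, b), ?_, ?_, ?_⟩
  · intro h
    have h1 := congrArg (coeff (Finsupp.single b 1)) h
    simp only [lf, coeff_sub, coeff_C_mul, coeff_zero, coeff_X] at h1
    have h2 : ¬ (Finsupp.single a 1 = Finsupp.single b 1) := by
      intro h2
      exact hb ((Finsupp.single_left_inj one_ne_zero).mp h2).symm
    rw [if_neg h2, if_pos trivial, mul_one, mul_zero, sub_zero] at h1
    exact ha h1
  · apply IsHomogeneous.sub
    · simpa using (isHomogeneous_C ι (P.rep a)).mul (isHomogeneous_X K b)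
    · simpa using (isHomogeneous_C ι (P.rep b)).mul (isHomogeneous_X K a)
  · rw [eval_lf]
    simp [wedge]
    ring

/-- Product of finitely many nonzero forms. -/
lemma exists_prod_form {α : Type*} (A : Finset α) (E : α → MvPolynomial ι K) (e : α → ℕ)
    (h0 : ∀ a ∈ A, E a ≠ 0) (hE : ∀ a ∈ A, (E a).IsHomogeneous (e a)) :
    (∏ a ∈ A, E a) ≠ 0 ∧ (∏ a ∈ A, E a).IsHomogeneous (∑ a ∈ A, e a) :=
  ⟨Finset.prod_ne_zero_iff.mpr h0, IsHomogeneous.prod A E e hE⟩

variable {r : ℕ}

lemma good_of_mem {S : Finset (FinitePlace K)} {J : Set (MvPolynomial ι K)} {δ : ℕ}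
    {Q : Finset (ℙ (AlgebraicClosure K) (ι → AlgebraicClosure K))}
    (hQ : ∀ q ∈ Q, Module.finrank K (fieldOf q) ≤ δ ∨ Isolated S J q) :
    ∀ q ∈ Q.filter (fun q => ¬ Isolated S J q), Module.finrank K (fieldOf q) ≤ δ := by
  intro q hq
  obtain ⟨h1, h2⟩ := Finset.mem_filter.mp hq
  exact (hQ q h1).resolve_right h2

/-- Part (A). -/
theorem partA (S : Finset (FinitePlace K)) (J : Set (MvPolynomial ι K))
    (hJ : ∀ g ∈ J, ∃ e, g.IsHomogeneous e) (F : Fin r → MvPolynomial ι K) (d : Fin r → ℕ)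
    (hF : ∀ i, (F i).IsHomogeneous (d i)) {n : ℕ} (hn : Fintype.card ι = n + 1)
    (m μ δ : ℕ) (hμ : 1 ≤ μ) (hδ : 1 ≤ δ) (hr : m * (Om S).card < r)
    (Q : Finset (ℙ (AlgebraicClosure K) (ι → AlgebraicClosure K)))
    (hQ : ∀ q ∈ Q, Module.finrank K (fieldOf q) ≤ δ ∨ Isolated S J q)
    (hmeet : ∀ I : Finset (Fin r), I.card = m + 1 → MeetCond J F I Q μ)
    (hd : ∀ i, (Om S).card * δ * μ ^ n < d i ^ n)
    (T : Set (ℙ K (ι → K))) (hTX : ∀ P ∈ T, OnX J P.rep) (hT : IntegralSet S F d T) :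
    ∃ (E : MvPolynomial ι K) (e : ℕ), E ≠ 0 ∧ E.IsHomogeneous e ∧ ∀ P ∈ T, eval P.rep E = 0 := by
  have hs : 1 ≤ (Om S).card := by
    rw [card_Om]
    have : 0 < Fintype.card (InfinitePlace K) := Fintype.card_pos
    omega
  have hr0 : 0 < r := by omega
  have hne : Nonempty (Fin r) := ⟨⟨0, hr0⟩⟩
  -- the minimal degree
  obtain ⟨i₀, hi₀⟩ := Finite.exists_min d
  have hn1 : 1 ≤ n := by
    by_contra hcon
    have : n = 0 := by omega
    subst this
    have h1 := hd i₀
    simp only [pow_zero, mul_one] at h1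
    have : 1 ≤ (Om S).card * δ := Nat.mul_pos hs hδ
    omega
  obtain ⟨e, k, hk, hke, hek, hcount⟩ := exists_ek (D := d i₀) hμ (Nat.mul_pos hs hδ) (hd i₀)
  choose W hW using fun v : Pl K => exists_ext v
  obtain ⟨c, C, hc, hC, hup⟩ := integral_upper S J hJ F d hF m μ hr Q hmeet W hW T hTX hT
  have hG := good_of_mem hQ
  choose E C₂ hE0 hE hC₂ hlow using
    fun f : {v // v ∈ Om S} → Option {q // q ∈ Q.filter (fun q => ¬ Isolated S J q)} =>
    aux_form S hn δ _ hG W hW hk hke hcount f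
  -- the bound for the height
  set B : ℝ := ∑ f : {v // v ∈ Om S} → Option {q // q ∈ Q.filter (fun q => ¬ Isolated S J q)},
    C ^ k * C₂ f ^ μ / c ^ k with hB
  have hfin := proj_northcott (K := K) (ι := ι) B
  choose lin hlin0 hlin hlinP using fun P : ℙ K (ι → K) => exists_linear hn hn1 P
  obtain ⟨h1, h1'⟩ := exists_prod_form (K := K) Finset.univ E (fun _ => e) (fun f _ => hE0 f)
    (fun f _ => hE f)
  obtain ⟨h2, h2'⟩ := exists_prod_form (K := K) hfin.toFinset lin (fun _ => 1)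
    (fun P _ => hlin0 P) (fun P _ => hlin P)
  refine ⟨(∏ f, E f) * ∏ P ∈ hfin.toFinset, lin P, _, mul_ne_zero h1 h2, h1'.mul h2', ?_⟩
  intro P hP
  rw [map_mul, map_prod, map_prod]
  obtain ⟨i, f, hif⟩ := hup P hP
  by_cases hz : eval P.rep (E f) = 0
  · rw [Finset.prod_eq_zero (Finset.mem_univ f) hz, zero_mul]
  · have hH : Height.mulHeight P.rep ≤ B := by
      have h3 := hlow f P.rep P.rep_nonzero hz
      have h4 := num_combine hc (hC₂ f) (Height.one_le_mulHeight P.rep)
        (RR_nonneg S W P.rep f) (lt_of_lt_of_le hek (Nat.mul_le_mul_left k (hi₀ i))) hif h3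
      refine h4.trans ?_
      rw [hB]
      apply Finset.single_le_sum (f := fun f => C ^ k * C₂ f ^ μ / c ^ k) _ (Finset.mem_univ f)
      intro f _
      have := hC₂ f
      positivity
    have hmem : P ∈ hfin.toFinset := by
      rw [Set.Finite.mem_toFinset]
      exact hH
    rw [Finset.prod_eq_zero hmem (hlinP P), mul_zero]

end Pool.Agent.Helper10.LV
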