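import Pool.Agent.Helper10.LV.PartA

set_option autoImplicit false
set_option linter.unusedSectionVars false

namespace Pool.Agent.Helper10.LV

open NumberField MvPolynomial
open scoped Classical LinearAlgebra.Projectivization

section MinForm

variable {K : Type*} [Field K] {L : Type*} [Field L] [Algebra K L] {ι : Type*} [Fintype ι]

/-- Homogenised polynomial. -/
noncomputable def hForm (p : Polynomial K) (i j : ι) : MvPolynomial ι K :=
  ∑ k ∈ Finset.range (p.natDegree + 1), C (p.coeff k) * X i ^ k * X j ^ (p.natDegree - k)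

lemma hForm_hom (p : Polynomial K) (i j : ι) : (hForm p i j).IsHomogeneous p.natDegree := by
  apply IsHomogeneous.sum
  intro k hk
  have hk' : k ≤ p.natDegree := by
    rw [Finset.mem_range] at hk
    omega
  have h1 := ((isHomogeneous_C ι (p.coeff k)).mul ((isHomogeneous_X K i).pow k)).mul
    ((isHomogeneous_X K j).pow (p.natDegree - k))
  have h2 : 0 + 1 * k + 1 * (p.natDegree - k) = p.natDegree := by omega
  rwa [h2] at h1

lemma aeval_hForm (p : Polynomial K) (i j : ι) (y : ι → L) (hy : y j ≠ 0) :
    aeval y (hForm p i j) = y j ^ p.natDegree * Polynomial.aeval (y i / y j) p := by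
  rw [hForm, map_sum, Polynomial.aeval_eq_sum_range, Finset.mul_sum]
  apply Finset.sum_congr rfl
  intro k hk
  have hk' : k ≤ p.natDegree := by
    rw [Finset.mem_range] at hk
    omega
  rw [map_mul, map_mul, map_pow, map_pow, aeval_X, aeval_X, algHom_C, Algebra.smul_def, div_pow]
  have h1 : y j ^ p.natDegree = y j ^ (p.natDegree - k) * y j ^ k := by
    rw [← pow_add, Nat.sub_add_cancel hk']
  rw [h1]
  field_simp

lemma eval_hForm_zero (p : Polynomial K) (hp : p.Monic) (i j : ι) (x : ι → K) (hx : x j = 0) :
    eval x (hForm p i j) = x i ^ p.natDegree := by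
  rw [hForm, map_sum, Finset.sum_range_succ, Finset.sum_eq_zero]
  · simp [hp.coeff_natDegree]
  · intro k hk
    rw [Finset.mem_range] at hk
    have : p.natDegree - k ≠ 0 := by omega
    simp [hx, this]

lemma eval_single_psi (q : ι → L) (j : ι) (hq : q j = 1) (E : MvPolynomial ι K) :
    eval (Pi.single j 1) (psi q j E) = aeval q E := by
  induction E using MvPolynomial.induction_on with
  | C a => simp [psi]
  | add p p' hp hp' => rw [map_add, map_add, map_add, hp, hp']
  | mul_X p i hp =>
    rw [map_mul, map_mul, map_mul, hp, aeval_X]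
    congr 1
    simp only [psi, aeval_X]
    split_ifs with h
    · subst h; simp [hq]
    · simp [h]

lemma coeff_psi_single (q : ι → L) (j : ι) (hq : q j = 1) {e : ℕ} {E : MvPolynomial ι K}
    (hE : E.IsHomogeneous e) : coeff (Finsupp.single j e) (psi q j E) = aeval q E := by
  have h1 : eval (Pi.single j 1) (psi q j E) = coeff (Finsupp.single j e) (psi q j E) := by
    rw [eval_eq]
    by_cases hmem : Finsupp.single j e ∈ (psi q j E).support
    · rw [Finset.sum_eq_single (Finsupp.single j e)]
      · rw [Finset.prod_eq_one, mul_one]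
        intro i hi
        by_cases hij : i = j
        · subst hij; simp
        · rw [Finsupp.mem_support_iff, Finsupp.single_apply, if_neg (fun h => hij h.symm)] at hi
          exact absurd rfl hi
      · intro m hm hmne
        have hdeg : m.degree = e := by
          have := (psi_hom q j hE) (mem_support_iff.mp hm)
          rwa [Finsupp.degree_eq_weight_one]
        obtain ⟨i, hi, hij⟩ : ∃ i ∈ m.support, i ≠ j := by
          by_contra hcon
          push Not at hcon
          apply hmne
          have h3 : m = Finsupp.single j (m j) := by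
            ext i
            by_cases hij : i = j
            · subst hij; simp
            · rw [Finsupp.single_apply, if_neg (fun h => hij h.symm)]
              by_contra h4
              exact hij (hcon i (Finsupp.mem_support_iff.mpr h4))
          rw [h3, Finsupp.degree_single] at hdeg
          rw [h3, hdeg]
        rw [Finset.prod_eq_zero hi, mul_zero]
        rw [Pi.single_apply, if_neg hij, zero_pow (Finsupp.mem_support_iff.mp hi)]
      · intro h; exact absurd hmem h
    · rw [notMem_support_iff.mp hmem]
      apply Finset.sum_eq_zero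
      intro m hm
      have hdeg : m.degree = e := by
        have := (psi_hom q j hE) (mem_support_iff.mp hm)
        rwa [Finsupp.degree_eq_weight_one]
      obtain ⟨i, hi, hij⟩ : ∃ i ∈ m.support, i ≠ j := by
        by_contra hcon
        push Not at hcon
        apply hmem
        have h3 : m = Finsupp.single j (m j) := by
          ext i
          by_cases hij : i = j
          · subst hij; simp
          · rw [Finsupp.single_apply, if_neg (fun h => hij h.symm)]
            by_contra h4
            exact hij (hcon i (Finsupp.mem_support_iff.mpr h4))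
        rw [h3, Finsupp.degree_single] at hdeg
        rw [h3, hdeg] at hm
        exact hm
      rw [Finset.prod_eq_zero hi, mul_zero]
      rw [Pi.single_apply, if_neg hij, zero_pow (Finsupp.mem_support_iff.mp hi)]
  rw [← h1]
  exact eval_single_psi q j hq E

end MinForm

variable {K : Type*} [Field K] [NumberField K] {ι : Type*} [Fintype ι] [Nonempty ι]

lemma natDegree_minpoly_le (q : ℙ (AlgebraicClosure K) (ι → AlgebraicClosure K)) (i j : ι) :
    (minpoly K (q.rep i / q.rep j)).natDegree ≤ Module.finrank K (fieldOf q) := by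
  have h1 := minpoly.natDegree_le (A := K) (⟨_, ratio_mem_fieldOf q i j⟩ : fieldOf q)
  have h2 := minpoly.algebraMap_eq (A := K) (B := fieldOf q) (B' := AlgebraicClosure K)
    (algebraMap (fieldOf q) (AlgebraicClosure K)).injective
    (⟨_, ratio_mem_fieldOf q i j⟩ : fieldOf q)
  have h3 : algebraMap (fieldOf q) (AlgebraicClosure K) (⟨_, ratio_mem_fieldOf q i j⟩ : fieldOf q) =
    q.rep i / q.rep j := rfl
  rw [h3] at h2
  rw [h2]
  exact h1

/-- The form attached to a coordinate of `q`. -/
noncomputable def cForm (q : ℙ (AlgebraicClosure K) (ι → AlgebraicClosure K)) (i : ι) :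
    MvPolynomial ι K :=
  hForm (minpoly K (q.rep i / q.rep (nz q))) i (nz q)

lemma exists_cForm_ne (q : ℙ (AlgebraicClosure K) (ι → AlgebraicClosure K)) {x : ι → K}
    (hx : x ≠ 0) (hw : wedge q.rep (up x) ≠ 0) : ∃ i, eval x (cForm q i) ≠ 0 := by
  by_contra hcon
  push Not at hcon
  set j := nz q with hj
  by_cases hxj : x j = 0
  · apply hx
    ext i
    have h1 := hcon i
    have hint : IsIntegral K (q.rep i / q.rep j) := Algebra.IsIntegral.isIntegral _
    rw [cForm, eval_hForm_zero _ (minpoly.monic hint) _ _ _ hxj] at h1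
    exact eq_zero_of_pow_eq_zero h1
  · have hroot : ∀ i, algebraMap K (AlgebraicClosure K) (x i / x j) = q.rep i / q.rep j := by
      intro i
      have h1 := hcon i
      have hint : IsIntegral K (q.rep i / q.rep j) := Algebra.IsIntegral.isIntegral _
      have h2 := aeval_hForm (L := K) (minpoly K (q.rep i / q.rep j)) i j x hxj
      have h3 : aeval x (cForm q i) = eval x (cForm q i) := by
        rw [← coe_aeval_eq_eval]
        rfl
      rw [← h3, cForm] at h1
      rw [h1] at h2
      apply minpoly.root hint
      have h4 := (mul_eq_zero.mp h2.symm).resolve_left (pow_ne_zero _ hxj)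
      rw [Polynomial.IsRoot.def, ← Polynomial.coe_aeval_eq_eval]
      exact h4
    apply hw
    have hqj : q.rep j ≠ 0 := nz_spec q
    have hxj' : algebraMap K (AlgebraicClosure K) (x j) ≠ 0 := by
      rwa [Ne, map_eq_zero_iff _ (algebraMap K (AlgebraicClosure K)).injective]
    have hq : ∀ i, q.rep i * up x j = up x i * q.rep j := by
      intro i
      have h1 := hroot i
      rw [map_div₀] at h1
      unfold up
      field_simp at h1
      linear_combination -h1
    ext ⟨a, b⟩
    simp only [wedge, Pi.zero_apply]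
    have h1 : q.rep a * up x b - q.rep b * up x a = 0 := by
      have ha := hq a
      have hb := hq b
      apply mul_right_cancel₀ hxj'
      rw [zero_mul]
      have : (q.rep a * up x b - q.rep b * up x a) * up x j = 0 := by
        linear_combination up x b * ha - up x a * hb
      exact this
    exact h1

/-- Liouville's inequality for the distance to an algebraic point. -/
lemma liouville (S : Finset (FinitePlace K)) (δ : ℕ)
    (q : ℙ (AlgebraicClosure K) (ι → AlgebraicClosure K))
    (hq : Module.finrank K (fieldOf q) ≤ δ)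
    (W : AbsoluteValue (AlgebraicClosure K) ℝ) (v : Pl K) (hv : v ∈ Om S)
    (hW : ∀ x : K, W (algebraMap K (AlgebraicClosure K) x) = av v x) :
    ∃ C : ℝ, 0 < C ∧ ∀ x : ι → K, x ≠ 0 → wedge q.rep (up x) ≠ 0 →
      1 ≤ C * (nrm W (wedge q.rep (up x)) / nrm (av v) x) ^ mt v * Height.mulHeight x ^ δ := by
  have hone : ∀ i : ι, ∃ C : ℝ, 0 < C ∧ ∀ x : ι → K, x ≠ 0 → eval x (cForm q i) ≠ 0 →
      1 ≤ C * (nrm W (wedge q.rep (up x)) / nrm (av v) x) ^ mt v * Height.mulHeight x ^ δ := by
    intro i
    set e := (minpoly K (q.rep i / q.rep (nz q))).natDegree with he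
    have heδ : e ≤ δ := (natDegree_minpoly_le q i (nz q)).trans hq
    have hE : (cForm q i).IsHomogeneous e := hForm_hom _ _ _
    obtain ⟨c, hc⟩ := exists_LC (K := K) hE
    choose B hB hB' using fun w : Pl K => exists_bound (av w) hE
    obtain ⟨C, hC, hC'⟩ := vanish_est W q.rep (nz q) (nz_spec q) (k := 1) hE (by
      intro m hm hlt
      have hqj : q.rep (nz q) / q.rep (nz q) = 1 := div_self (nz_spec q)
      have h1 := coeff_psi_single (K := K) (fun i => q.rep i / q.rep (nz q)) (nz q) hqj hE
      have h2 : m = Finsupp.single (nz q) e := by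
        have h3 : Finsupp.single (nz q) e ≤ m := by
          rw [Finsupp.single_le_iff]
          omega
        have h4 : (m - Finsupp.single (nz q) e).degree + (Finsupp.single (nz q) e).degree =
            m.degree := by
          rw [← map_add, tsub_add_cancel_of_le h3]
        rw [Finsupp.degree_single, hm] at h4
        have h5 : m - Finsupp.single (nz q) e = 0 := by
          rw [← Finsupp.degree_eq_zero_iff]
          omega
        rw [← tsub_add_cancel_of_le h3, h5, zero_add]
      rw [h2, h1, cForm, aeval_hForm _ _ _ _ (by rw [hqj]; exact one_ne_zero), hqj, div_one,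
        minpoly.aeval, mul_zero])
    refine ⟨(C ^ mt v * ∏ w ∈ (Om S).erase v, B w ^ mt w) * c.tot, ?_, ?_⟩
    · exact mul_pos (mul_pos (pow_pos hC _) (Finset.prod_pos fun w _ => pow_pos (hB w) _))
        (lt_of_lt_of_le one_pos c.one_le_tot)
    intro x hx hne
    have h1 := global_lower (S := S) hx hne e c (fun v _ => hc v x)
    refine h1.trans ?_
    have hH := Height.mulHeight_pos x
    have hH1 := Height.one_le_mulHeight x
    have hct : 0 < c.tot := lt_of_lt_of_le one_pos c.one_le_tot
    have hρ : 0 ≤ nrm W (wedge q.rep (up x)) / nrm (av v) x :=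
      div_nonneg (nrm_nonneg _ _) (nrm_nonneg _ _)
    have h2 : ra v (eval x (cForm q i)) x e ≤
        C ^ mt v * (nrm W (wedge q.rep (up x)) / nrm (av v) x) ^ mt v := by
      rw [← mul_pow]
      apply pow_le_pow_left₀ (div_nonneg ((av v).nonneg _) (pow_nonneg (nrm_nonneg _ _) _))
      have h3 := hC' x hx
      rw [hW, pow_one] at h3
      have h4 : nrm W (fun i => algebraMap K (AlgebraicClosure K) (x i)) = nrm (av v) x :=
        nrm_up W v hW x
      rw [h4] at h3
      exact h3
    have h3 : ∏ w ∈ (Om S).erase v, ra w (eval x (cForm q i)) x e ≤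
        ∏ w ∈ (Om S).erase v, B w ^ mt w := by
      apply Finset.prod_le_prod
      · intro w _; exact ra_nonneg _ _ _ _
      · intro w _
        exact pow_le_pow_left₀ (div_nonneg ((av w).nonneg _) (pow_nonneg (nrm_nonneg _ _) _))
          (hB' w x hx) _
    have h4 : ∏ w ∈ Om S, ra w (eval x (cForm q i)) x e ≤
        (C ^ mt v * (nrm W (wedge q.rep (up x)) / nrm (av v) x) ^ mt v) *
          ∏ w ∈ (Om S).erase v, B w ^ mt w := by
      rw [← Finset.mul_prod_erase _ _ hv]
      apply mul_le_mul h2 h3 (Finset.prod_nonneg fun w _ => ra_nonneg _ _ _ _)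
      positivity
    have h5 : 0 ≤ ∏ w ∈ Om S, ra w (eval x (cForm q i)) x e :=
      Finset.prod_nonneg fun w _ => ra_nonneg _ _ _ _
    have h6 : 0 < ∏ w ∈ (Om S).erase v, B w ^ mt w := Finset.prod_pos fun w _ => pow_pos (hB w) _
    calc (∏ w ∈ Om S, ra w (eval x (cForm q i)) x e) * c.tot * Height.mulHeight x ^ e
        ≤ ((C ^ mt v * (nrm W (wedge q.rep (up x)) / nrm (av v) x) ^ mt v) *
          ∏ w ∈ (Om S).erase v, B w ^ mt w) * c.tot * Height.mulHeight x ^ δ := by
            gcongr
      _ = _ := by ring
  choose C hC hC' using hone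
  refine ⟨∑ i, C i, Finset.sum_pos (fun i _ => hC i) Finset.univ_nonempty, ?_⟩
  intro x hx hw
  obtain ⟨i, hi⟩ := exists_cForm_ne q hx hw
  refine (hC' i x hx hi).trans ?_
  have hH := Height.mulHeight_pos x
  have h1 : C i ≤ ∑ i, C i := Finset.single_le_sum (fun i _ => (hC i).le) (Finset.mem_univ i)
  have hρ : 0 ≤ (nrm W (wedge q.rep (up x)) / nrm (av v) x) ^ mt v :=
    pow_nonneg (div_nonneg (nrm_nonneg _ _) (nrm_nonneg _ _)) _
  gcongr

/-- At most one rational point coincides with a given algebraic point. -/
lemma finite_coincide (q : ℙ (AlgebraicClosure K) (ι → AlgebraicClosure K)) :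
    {P : ℙ K (ι → K) | wedge q.rep (up P.rep) = 0}.Finite := by
  apply Set.Subsingleton.finite
  intro P hP P' hP'
  have hqj : q.rep (nz q) ≠ 0 := nz_spec q
  have key : ∀ P : ℙ K (ι → K), wedge q.rep (up P.rep) = 0 → P.rep (nz q) ≠ 0 := by
    intro P hP h0
    apply P.rep_nonzero
    ext i
    have h1 := congrFun hP (nz q, i)
    simp only [wedge, up, h0, map_zero, mul_zero, sub_zero, Pi.zero_apply, mul_eq_zero] at h1
    have h2 := h1.resolve_left hqj
    rwa [map_eq_zero_iff _ (algebraMap K (AlgebraicClosure K)).injective] at h2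
  have hPj := key P hP
  have hPj' := key P' hP'
  rw [← P.mk_rep, ← P'.mk_rep, Projectivization.mk_eq_mk_iff']
  refine ⟨P.rep (nz q) / P'.rep (nz q), ?_⟩
  ext i
  apply (algebraMap K (AlgebraicClosure K)).injective
  have h1 := congrFun hP (nz q, i)
  have h2 := congrFun hP' (nz q, i)
  simp only [wedge, up, Pi.zero_apply] at h1 h2
  rw [Pi.smul_apply, smul_eq_mul, map_mul, map_div₀]
  have a1 : algebraMap K (AlgebraicClosure K) (P.rep (nz q)) ≠ 0 := by
    rwa [Ne, map_eq_zero_iff _ (algebraMap K (AlgebraicClosure K)).injective]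
  have a2 : algebraMap K (AlgebraicClosure K) (P'.rep (nz q)) ≠ 0 := by
    rwa [Ne, map_eq_zero_iff _ (algebraMap K (AlgebraicClosure K)).injective]
  field_simp
  apply mul_left_cancel₀ hqj
  linear_combination algebraMap K (AlgebraicClosure K) (P.rep (nz q)) * h2 -
    algebraMap K (AlgebraicClosure K) (P'.rep (nz q)) * h1

variable {r : ℕ}

/-- Part (B). -/
theorem partB (S : Finset (FinitePlace K)) (J : Set (MvPolynomial ι K))
    (hJ : ∀ g ∈ J, ∃ e, g.IsHomogeneous e) (F : Fin r → MvPolynomial ι K) (d : Fin r → ℕ)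
    (hF : ∀ i, (F i).IsHomogeneous (d i))
    (m μ δ : ℕ) (hr : m * (Om S).card < r)
    (Q : Finset (ℙ (AlgebraicClosure K) (ι → AlgebraicClosure K)))
    (hQ : ∀ q ∈ Q, Module.finrank K (fieldOf q) ≤ δ ∨ Isolated S J q)
    (hmeet : ∀ I : Finset (Fin r), I.card = m + 1 → MeetCond J F I Q μ)
    (hd : ∀ i, (Om S).card * δ * μ < d i)
    (T : Set (ℙ K (ι → K))) (hTX : ∀ P ∈ T, OnX J P.rep) (hT : IntegralSet S F d T) :
    T.Finite := by
  choose W hW using fun v : Pl K => exists_ext v
  obtain ⟨c, C, hc, hC, hup⟩ := integral_upper S J hJ F d hF m μ hr Q hmeet W hW T hTX hT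
  have hG := good_of_mem hQ
  set G : Finset (ℙ (AlgebraicClosure K) (ι → AlgebraicClosure K)) :=
    Q.filter (fun q => ¬ Isolated S J q) with hGdef
  have hex : ∀ p : ℙ (AlgebraicClosure K) (ι → AlgebraicClosure K) × Pl K, ∃ C : ℝ, 0 < C ∧
      (p.1 ∈ G → p.2 ∈ Om S → ∀ x : ι → K, x ≠ 0 → wedge p.1.rep (up x) ≠ 0 →
      1 ≤ C * (nrm (W p.2) (wedge p.1.rep (up x)) / nrm (av p.2) x) ^ mt p.2 *
        Height.mulHeight x ^ δ) := by
    rintro ⟨q, v⟩
    by_cases hq : q ∈ G
    · by_cases hv : v ∈ Om S
      · obtain ⟨C, hC, h⟩ := liouville S δ q (hG q hq) (W v) v hv (hW v)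
        exact ⟨C, hC, fun _ _ => h⟩
      · exact ⟨1, one_pos, fun _ h => absurd h hv⟩
    · exact ⟨1, one_pos, fun h => absurd h hq⟩
  choose D hD0 hD using hex
  set L : ℝ := 1 + ∑ p ∈ G ×ˢ Om S, D p with hL
  have hsum0 : 0 ≤ ∑ p ∈ G ×ˢ Om S, D p := Finset.sum_nonneg fun p _ => (hD0 p).le
  have hL1 : 1 ≤ L := by linarith
  set B : ℝ := C ^ 1 * (L ^ (Om S).card) ^ μ / c ^ 1 with hB
  have hsub : T ⊆ {P : ℙ K (ι → K) | Height.mulHeight P.rep ≤ B} ∪
      ⋃ q ∈ G, {P : ℙ K (ι → K) | wedge q.rep (up P.rep) = 0} := by
    intro P hP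
    by_cases hz : ∃ q ∈ G, wedge q.rep (up P.rep) = 0
    · right
      obtain ⟨q, hq, h⟩ := hz
      exact Set.mem_biUnion hq h
    · left
      push Not at hz
      obtain ⟨i, f, hif⟩ := hup P hP
      have hH1 := Height.one_le_mulHeight P.rep
      have hH := Height.mulHeight_pos P.rep
      have hx := P.rep_nonzero
      have hv : ∀ v : {v // v ∈ Om S},
          1 ≤ L * rr W P.rep v.1 (f v) ^ mt v.1 * Height.mulHeight P.rep ^ δ := by
        intro v
        rcases f v with _ | q
        · simp only [rr, one_pow, mul_one]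
          exact one_le_mul_of_one_le_of_one_le hL1 (one_le_pow₀ hH1)
        · refine (hD (q.1, v.1) q.2 v.2 P.rep hx (hz q.1 q.2)).trans ?_
          have h1 : D (q.1, v.1) ≤ L := by
            have := Finset.single_le_sum (f := D) (fun p _ => (hD0 p).le)
              (Finset.mem_product.mpr ⟨q.2, v.2⟩ : (q.1, v.1) ∈ G ×ˢ Om S)
            linarith
          have h2 : 0 ≤ rr W P.rep v.1 (some q) ^ mt v.1 := pow_nonneg (rr_nonneg _ _ _ _) _
          change D (q.1, v.1) * rr W P.rep v.1 (some q) ^ mt v.1 * Height.mulHeight P.rep ^ δ ≤ _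
          gcongr
      have hprod : 1 ≤ L ^ (Om S).card * RR S W P.rep f ^ 1 *
          Height.mulHeight P.rep ^ ((Om S).card * δ) := by
        calc (1 : ℝ) ≤ ∏ v : {v // v ∈ Om S},
              (L * rr W P.rep v.1 (f v) ^ mt v.1 * Height.mulHeight P.rep ^ δ) :=
              one_le_prod_real fun v _ => hv v
          _ = _ := by
              rw [Finset.prod_mul_distrib, Finset.prod_mul_distrib, Finset.prod_const,
                Finset.prod_const, Finset.card_univ, Fintype.card_coe, RR, pow_one, ← pow_mul,
                mul_comm δ]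
      exact num_combine hc (pow_pos (lt_of_lt_of_le one_pos hL1) _) hH1
        (RR_nonneg S W P.rep f) (by
          have := hd i
          rw [one_mul]
          calc μ * ((Om S).card * δ) = (Om S).card * δ * μ := by ring
            _ < d i := this) hif hprod
  refine Set.Finite.subset (Set.Finite.union (proj_northcott B) ?_) hsub
  exact Set.Finite.biUnion G.finite_toSet fun q _ => finite_coincide q

end Pool.Agent.Helper10.LV
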