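import Pool.Agent.Helper10.LV.PartB

set_option autoImplicit false
set_option linter.unusedSectionVars false

namespace Pool.Agent.Helper10.LV

open NumberField MvPolynomial
open scoped Classical LinearAlgebra.Projectivization

variable {K : Type*} [Field K] [NumberField K] {ι : Type*} [Fintype ι] [Nonempty ι]

/-- The points occurring in a pattern. -/
noncomputable def pts {S : Finset (FinitePlace K)}
    {G : Finset (ℙ (AlgebraicClosure K) (ι → AlgebraicClosure K))}
    (f : {v // v ∈ Om S} → Option {q // q ∈ G}) :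
    Finset (ℙ (AlgebraicClosure K) (ι → AlgebraicClosure K)) :=
  Finset.univ.biUnion fun v => (f v).elim ∅ (fun q => {q.1})

lemma mem_pts {S : Finset (FinitePlace K)}
    {G : Finset (ℙ (AlgebraicClosure K) (ι → AlgebraicClosure K))}
    {f : {v // v ∈ Om S} → Option {q // q ∈ G}} {v : {v // v ∈ Om S}} {q : {q // q ∈ G}}
    (h : f v = some q) : q.1 ∈ pts f := by
  rw [pts, Finset.mem_biUnion]
  exact ⟨v, Finset.mem_univ _, by rw [h]; simp⟩

lemma pts_sub {S : Finset (FinitePlace K)}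
    {G : Finset (ℙ (AlgebraicClosure K) (ι → AlgebraicClosure K))}
    (f : {v // v ∈ Om S} → Option {q // q ∈ G}) : pts f ⊆ G := by
  intro q hq
  rw [pts, Finset.mem_biUnion] at hq
  obtain ⟨v, _, hv⟩ := hq
  rcases hf : f v with _ | q'
  · rw [hf] at hv
    simp at hv
  · rw [hf] at hv
    simp only [Option.elim_some, Finset.mem_singleton] at hv
    rw [hv]
    exact q'.2

lemma card_pts {S : Finset (FinitePlace K)}
    {G : Finset (ℙ (AlgebraicClosure K) (ι → AlgebraicClosure K))}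
    (f : {v // v ∈ Om S} → Option {q // q ∈ G}) : (pts f).card ≤ (Om S).card := by
  have h := Finset.card_biUnion_le_card_mul (Finset.univ : Finset {v // v ∈ Om S})
    (fun v => (f v).elim (∅ : Finset (ℙ (AlgebraicClosure K) (ι → AlgebraicClosure K)))
      (fun q => {q.1})) 1 (by
      intro v _
      rcases f v with _ | q
      · simp
      · simp)
  rw [Finset.card_univ, Fintype.card_coe, mul_one] at h
  exact h

/-- Lower bound for a given auxiliary form. -/
lemma aux_lower (S : Finset (FinitePlace K)) (J : Set (MvPolynomial ι K))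
    (hJ : ∀ g ∈ J, ∃ e, g.IsHomogeneous e)
    (G : Finset (ℙ (AlgebraicClosure K) (ι → AlgebraicClosure K)))
    (W : Pl K → AbsoluteValue (AlgebraicClosure K) ℝ)
    (hW : ∀ v, ∀ x : K, W v (algebraMap K (AlgebraicClosure K) x) = av v x)
    {e k : ℕ} (f : {v // v ∈ Om S} → Option {q // q ∈ G}) (E : MvPolynomial ι K)
    (hE : E.IsHomogeneous e) (hvan : ∀ q ∈ pts f, VanishAt J q k E) :
    ∃ (C : ℝ), 0 < C ∧ ∀ x : ι → K, x ≠ 0 → OnX J x → eval x E ≠ 0 →
      1 ≤ C * RR S W x f ^ k * Height.mulHeight x ^ e := by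
  -- local bounds
  have hloc : ∀ v : {v // v ∈ Om S}, ∃ C : ℝ, 0 < C ∧ ∀ x : ι → K, x ≠ 0 → OnX J x →
      av v.1 (eval x E) / nrm (av v.1) x ^ e ≤ C * rr W x v.1 (f v) ^ k := by
    intro v
    rcases hfv : f v with _ | q
    · obtain ⟨C, hC, h⟩ := exists_bound (av v.1) hE
      exact ⟨C, hC, fun x hx _ => by simpa [rr] using h x hx⟩
    · obtain ⟨M, hM⟩ := hvan q.1 (mem_pts hfv)
      obtain ⟨C, hC, h⟩ := vanish_along (W v.1) q.1.rep (upP '' J) (upP_J_hom hJ) (upP_hom hE) hM
      refine ⟨C, hC, fun x hx hxJ => ?_⟩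
      have h1 := h (up x) (up_ne_zero hx) (upP_J_zero hxJ)
      rw [eval_up, hW, nrm_up (W v.1) v.1 (hW v.1) x] at h1
      exact h1
  choose C hC hloc using hloc
  obtain ⟨c, hc⟩ := exists_LC (K := K) hE
  refine ⟨(∏ v : {v // v ∈ Om S}, C v ^ mt v.1) * c.tot,
    mul_pos (Finset.prod_pos fun v _ => pow_pos (hC v) _) (lt_of_lt_of_le one_pos c.one_le_tot), ?_⟩
  intro x hx hxJ hne
  have h1 := global_lower (S := S) hx hne e c (fun v _ => hc v x)
  refine h1.trans ?_
  have hH := Height.mulHeight_pos x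
  have hct : 0 < c.tot := lt_of_lt_of_le one_pos c.one_le_tot
  have h2 : ∏ w ∈ Om S, ra w (eval x E) x e ≤
      (∏ v : {v // v ∈ Om S}, C v ^ mt v.1) * RR S W x f ^ k := by
    rw [RR, ← Finset.prod_pow, ← Finset.prod_mul_distrib,
      ← Finset.prod_coe_sort (Om S) (fun w => ra w (eval x E) x e)]
    apply Finset.prod_le_prod
    · intro v _
      exact ra_nonneg _ _ _ _
    · intro v _
      unfold ra
      calc (av v.1 (eval x E) / nrm (av v.1) x ^ e) ^ mt v.1
          ≤ (C v * rr W x v.1 (f v) ^ k) ^ mt v.1 := by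
            apply pow_le_pow_left₀ _ (hloc v x hx hxJ)
            exact div_nonneg ((av v.1).nonneg _) (pow_nonneg (nrm_nonneg _ _) _)
        _ = _ := by rw [mul_pow, ← pow_mul, ← pow_mul, mul_comm (mt v.1) k]
  calc (∏ w ∈ Om S, ra w (eval x E) x e) * c.tot * Height.mulHeight x ^ e
      ≤ ((∏ v : {v // v ∈ Om S}, C v ^ mt v.1) * RR S W x f ^ k) * c.tot *
        Height.mulHeight x ^ e := by gcongr
    _ = _ := by ring

lemma finite_hom (e : ℕ) : (homogeneousSubmodule ι K e).FG := by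
  have h : homogeneousSubmodule ι K e ≤ LinearMap.range (gen (K := K) (ι := ι) e) := by
    intro E hE
    rw [mem_homogeneousSubmodule] at hE
    refine ⟨fun m => coeff m.1 E, ?_⟩
    ext m
    by_cases hm : m.degree = e
    · have h1 := coeff_gen (K := K) (ι := ι) e (fun m => coeff m.1 E) ⟨m, mem_Bd.mpr hm⟩
      exact h1
    · rw [(gen_hom e _).coeff_eq_zero hm, hE.coeff_eq_zero hm]
  have : FiniteDimensional K (LinearMap.range (gen (K := K) (ι := ι) e)) := inferInstance
  have h2 : FiniteDimensional K (homogeneousSubmodule ι K e) :=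
    Submodule.finiteDimensional_of_le h
  exact Module.Finite.iff_fg.mp h2

/-- The space of forms of degree `e` vanishing to order `k` along `X` at the points of `A`. -/
noncomputable def vanSub (J : Set (MvPolynomial ι K))
    (A : Finset (ℙ (AlgebraicClosure K) (ι → AlgebraicClosure K))) (e k : ℕ) :
    Submodule K (MvPolynomial ι K) where
  carrier := {E | E.IsHomogeneous e ∧ ∀ q ∈ A, VanishAt J q k E}
  add_mem' := by
    rintro a b ⟨ha, ha'⟩ ⟨hb, hb'⟩
    refine ⟨ha.add hb, fun q hq => ?_⟩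
    obtain ⟨M, hM⟩ := ha' q hq
    obtain ⟨M', hM'⟩ := hb' q hq
    refine ⟨M + M', ?_⟩
    rw [Ideal.mul_le]
    intro r hr s hs
    rw [Ideal.mem_span_singleton'] at hs
    obtain ⟨t, rfl⟩ := hs
    have hr1 : r ∈ irr (AlgebraicClosure K) ι ^ M :=
      Ideal.pow_le_pow_right (Nat.le_add_right M M') hr
    have hr2 : r ∈ irr (AlgebraicClosure K) ι ^ M' :=
      Ideal.pow_le_pow_right (Nat.le_add_left M' M) hr
    have e1 : r * (t * upP (a + b)) = r * (t * upP a) + r * (t * upP b) := by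
      simp only [upP, map_add]
      ring
    rw [e1]
    apply Ideal.add_mem
    · exact hM (Ideal.mul_mem_mul hr1 (Ideal.mem_span_singleton'.mpr ⟨t, rfl⟩))
    · exact hM' (Ideal.mul_mem_mul hr2 (Ideal.mem_span_singleton'.mpr ⟨t, rfl⟩))
  zero_mem' := by
    refine ⟨isHomogeneous_zero _ _ _, fun q _ => ⟨0, ?_⟩⟩
    simp [upP]
  smul_mem' := by
    rintro c a ⟨ha, ha'⟩
    refine ⟨?_, fun q hq => ?_⟩
    · rw [smul_eq_C_mul]
      simpa using (isHomogeneous_C ι c).mul ha
    · obtain ⟨M, hM⟩ := ha' q hq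
      refine ⟨M, le_trans (Ideal.mul_mono_right ?_) hM⟩
      rw [Ideal.span_le, Set.singleton_subset_iff, SetLike.mem_coe, Ideal.mem_span_singleton']
      refine ⟨C (algebraMap K _ c), ?_⟩
      simp [upP, smul_eq_C_mul]

lemma mem_vanSub {J : Set (MvPolynomial ι K)}
    {A : Finset (ℙ (AlgebraicClosure K) (ι → AlgebraicClosure K))} {e k : ℕ}
    {E : MvPolynomial ι K} :
    E ∈ vanSub J A e k ↔ E.IsHomogeneous e ∧ ∀ q ∈ A, VanishAt J q k E := Iff.rfl

lemma vanSub_fg (J : Set (MvPolynomial ι K))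
    (A : Finset (ℙ (AlgebraicClosure K) (ι → AlgebraicClosure K))) (e k : ℕ) :
    (vanSub J A e k).FG := by
  have h : vanSub J A e k ≤ homogeneousSubmodule ι K e := fun E hE => hE.1
  have h1 : FiniteDimensional K (homogeneousSubmodule ι K e) :=
    Module.Finite.iff_fg.mpr (finite_hom e)
  have h2 : FiniteDimensional K (vanSub J A e k) := Submodule.finiteDimensional_of_le h
  exact Module.Finite.iff_fg.mp h2

variable {r : ℕ}

/-- Part (C). -/
theorem partC (S : Finset (FinitePlace K)) (J : Set (MvPolynomial ι K))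
    (hJ : ∀ g ∈ J, ∃ e, g.IsHomogeneous e) (F : Fin r → MvPolynomial ι K) (d : Fin r → ℕ)
    (hF : ∀ i, (F i).IsHomogeneous (d i))
    (m μ : ℕ) (hr : m * (Om S).card < r)
    (Q : Finset (ℙ (AlgebraicClosure K) (ι → AlgebraicClosure K)))
    (hmeet : ∀ I : Finset (Fin r), I.card = m + 1 → MeetCond J F I Q μ)
    (e k : ℕ) (hek : ∀ i, μ * e < k * d i)
    (T : Set (ℙ K (ι → K))) (hTX : ∀ P ∈ T, OnX J P.rep) (hT : IntegralSet S F d T) :
    ∃ Z : Set (ℙ K (ι → K)), Z.Finite ∧ ∀ P ∈ T, P ∉ Z →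
      ∃ Q' : Finset (ℙ (AlgebraicClosure K) (ι → AlgebraicClosure K)), Q' ⊆ Q ∧
        Q'.card ≤ (Om S).card ∧ (∀ q ∈ Q', ¬ Isolated S J q) ∧
        ∀ E : MvPolynomial ι K, E.IsHomogeneous e → (∀ q ∈ Q', VanishAt J q k E) →
          eval P.rep E = 0 := by
  choose W hW using fun v : Pl K => exists_ext v
  obtain ⟨c, C, hc, hC, hup⟩ := integral_upper S J hJ F d hF m μ hr Q hmeet W hW T hTX hT
  set G : Finset (ℙ (AlgebraicClosure K) (ι → AlgebraicClosure K)) :=
    Q.filter (fun q => ¬ Isolated S J q) with hGdef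
  choose t ht using fun f : {v // v ∈ Om S} → Option {q // q ∈ G} => vanSub_fg J (pts f) e k
  have hmem : ∀ (f : {v // v ∈ Om S} → Option {q // q ∈ G}), ∀ E ∈ t f,
      E ∈ vanSub J (pts f) e k := by
    intro f E hE
    rw [← ht f]
    exact Submodule.subset_span hE
  have hC' : ∀ p : ({v // v ∈ Om S} → Option {q // q ∈ G}) × MvPolynomial ι K, ∃ D : ℝ, 0 < D ∧
      (p.2 ∈ t p.1 → ∀ x : ι → K, x ≠ 0 → OnX J x → eval x p.2 ≠ 0 →
      1 ≤ D * RR S W x p.1 ^ k * Height.mulHeight x ^ e) := by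
    rintro ⟨f, E⟩
    by_cases hE : E ∈ t f
    · obtain ⟨h1, h2⟩ := mem_vanSub.mp (hmem f E hE)
      obtain ⟨D, hD, h⟩ := aux_lower S J hJ G W hW f E h1 h2
      exact ⟨D, hD, fun _ => h⟩
    · exact ⟨1, one_pos, fun h => absurd h hE⟩
  choose D hD0 hD using hC'
  set B : ℝ := ∑ f : {v // v ∈ Om S} → Option {q // q ∈ G}, ∑ E ∈ t f,
    C ^ k * D (f, E) ^ μ / c ^ k with hB
  refine ⟨{P | Height.mulHeight P.rep ≤ B}, proj_northcott B, ?_⟩
  intro P hP hPZ
  obtain ⟨i, f, hif⟩ := hup P hP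
  refine ⟨pts f, (pts_sub f).trans (Finset.filter_subset _ _), card_pts f, ?_, ?_⟩
  · intro q hq
    exact (Finset.mem_filter.mp (pts_sub f hq)).2
  · intro E hE hEv
    have hEmem : E ∈ Submodule.span K (t f : Set (MvPolynomial ι K)) := by
      rw [ht f]
      exact ⟨hE, hEv⟩
    have hgen : ∀ E ∈ t f, eval P.rep E = 0 := by
      intro E hE
      by_contra hne
      apply hPZ
      have h3 := hD (f, E) hE P.rep P.rep_nonzero (hTX P hP) hne
      have h4 := num_combine hc (hD0 (f, E)) (Height.one_le_mulHeight P.rep)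
        (RR_nonneg S W P.rep f) (hek i) hif h3
      refine h4.trans ?_
      rw [hB]
      have hpos : ∀ p, 0 ≤ C ^ k * D p ^ μ / c ^ k := by
        intro p
        have := hD0 p
        positivity
      calc C ^ k * D (f, E) ^ μ / c ^ k
          ≤ ∑ E ∈ t f, C ^ k * D (f, E) ^ μ / c ^ k :=
            Finset.single_le_sum (f := fun E => C ^ k * D (f, E) ^ μ / c ^ k)
              (fun E _ => hpos (f, E)) hE
        _ ≤ _ := Finset.single_le_sum
            (f := fun f => ∑ E ∈ t f, C ^ k * D (f, E) ^ μ / c ^ k)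
            (fun f _ => Finset.sum_nonneg fun E _ => hpos (f, E)) (Finset.mem_univ f)
    induction hEmem using Submodule.span_induction with
    | mem y hy => exact hgen y hy
    | zero => exact map_zero _
    | add y z hy hz ihy ihz =>
      have hy' : y ∈ vanSub J (pts f) e k := by rw [← ht f]; exact hy
      have hz' : z ∈ vanSub J (pts f) e k := by rw [← ht f]; exact hz
      rw [map_add, ihy hy'.1 hy'.2, ihz hz'.1 hz'.2, add_zero]
    | smul a y hy ihy =>
      have hy' : y ∈ vanSub J (pts f) e k := by rw [← ht f]; exact hy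
      rw [smul_eval, ihy hy'.1 hy'.2, mul_zero]

end Pool.Agent.Helper10.LV
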