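import Pool.Agent.Helper10.LV.Defs

set_option autoImplicit false
set_option linter.unusedSectionVars false

namespace Pool.Agent.Helper10.LV

open NumberField MvPolynomial
open scoped Classical

lemma one_le_prod_real {α : Type*} {s : Finset α} {f : α → ℝ} (h : ∀ i ∈ s, 1 ≤ f i) :
    1 ≤ ∏ i ∈ s, f i := by
  calc (1 : ℝ) = ∏ i ∈ s, (1 : ℝ) := by simp
    _ ≤ ∏ i ∈ s, f i := Finset.prod_le_prod (fun _ _ => zero_le_one) h

lemma prod_le_prod_subset_real {α : Type*} {s t : Finset α} (hst : s ⊆ t) {f : α → ℝ}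
    (h : ∀ i ∈ t, 1 ≤ f i) : ∏ i ∈ s, f i ≤ ∏ i ∈ t, f i := by
  rw [← Finset.prod_sdiff hst]
  have h1 : 1 ≤ ∏ i ∈ t \ s, f i := one_le_prod_real fun i hi => h i (Finset.sdiff_subset hi)
  have h2 : 1 ≤ ∏ i ∈ s, f i := one_le_prod_real fun i hi => h i (hst hi)
  nlinarith

/-! ### Sup norms with respect to an absolute value -/

section Norm

variable {L : Type*} [Field L] {ι : Type*} [Finite ι]

lemma le_nrm (w : AbsoluteValue L ℝ) (x : ι → L) (j : ι) : w (x j) ≤ nrm w x :=
  Finite.le_ciSup (fun j => w (x j)) j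

lemma nrm_nonneg (w : AbsoluteValue L ℝ) (x : ι → L) : 0 ≤ nrm w x :=
  Real.iSup_nonneg_of_nonnegHomClass w _

lemma nrm_le [Nonempty ι] (w : AbsoluteValue L ℝ) (x : ι → L) {c : ℝ} (h : ∀ j, w (x j) ≤ c) :
    nrm w x ≤ c := ciSup_le h

lemma exists_eq_nrm [Nonempty ι] (w : AbsoluteValue L ℝ) (x : ι → L) :
    ∃ j, w (x j) = nrm w x := exists_eq_ciSup_of_finite (f := fun j => w (x j))

lemma nrm_pos [Nonempty ι] (w : AbsoluteValue L ℝ) {x : ι → L} (hx : x ≠ 0) : 0 < nrm w x := by
  obtain ⟨j, hj⟩ := Function.ne_iff.mp hx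
  exact lt_of_lt_of_le (w.pos hj) (le_nrm w x j)

lemma nrm_smul [Nonempty ι] (w : AbsoluteValue L ℝ) (a : L) (x : ι → L) :
    nrm w (a • x) = w a * nrm w x := by
  unfold nrm
  rw [Real.mul_iSup_of_nonneg (w.nonneg a)]
  simp

end Norm

/-! ### Places of a number field -/

variable {K : Type*} [Field K] [NumberField K]

/-- The places of a number field. -/
abbrev Pl (K : Type*) [Field K] [NumberField K] := InfinitePlace K ⊕ FinitePlace K

/-- The absolute value attached to a place. -/
noncomputable def av : Pl K → AbsoluteValue K ℝ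
  | .inl v => v.val
  | .inr v => v.val

/-- The exponent that normalises the absolute value of a place. -/
noncomputable def mt : Pl K → ℕ
  | .inl v => v.mult
  | .inr _ => 1

lemma mt_pos (w : Pl K) : 0 < mt w := by
  rcases w with v | v
  · exact v.mult_pos
  · exact one_pos

/-- All infinite places together with a finite set of finite places. -/
noncomputable def Om (A : Finset (FinitePlace K)) : Finset (Pl K) := Finset.univ.disjSum A

lemma card_Om (A : Finset (FinitePlace K)) :
    (Om A).card = Fintype.card (InfinitePlace K) + A.card := by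
  simp [Om]

lemma prod_Om (A : Finset (FinitePlace K)) (f : Pl K → ℝ) :
    ∏ w ∈ Om A, f w = (∏ v : InfinitePlace K, f (.inl v)) * ∏ v ∈ A, f (.inr v) := by
  simp [Om, Finset.prod_disjSum]

lemma prod_Om_of_subset {S A : Finset (FinitePlace K)} (h : S ⊆ A) (f : Pl K → ℝ) :
    ∏ w ∈ Om A, f w = (∏ w ∈ Om S, f w) * ∏ v ∈ A \ S, f (.inr v) := by
  rw [prod_Om, prod_Om, mul_assoc, mul_comm (∏ v ∈ S, f (.inr v)), Finset.prod_sdiff h]

/-- The product formula over a large finite set of places. -/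
lemma prodFormula {y : K} (hy : y ≠ 0) (A : Finset (FinitePlace K))
    (hA : ∀ v : FinitePlace K, v y ≠ 1 → v ∈ A) : ∏ w ∈ Om A, av w y ^ mt w = 1 := by
  rw [prod_Om]
  have h := prod_abs_eq_one hy
  rw [finprod_eq_prod_of_mulSupport_subset (s := A)] at h
  · simp only [av, mt, pow_one]
    exact h
  · intro v hv
    exact hA v hv

variable {ι : Type*} [Finite ι]

/-- The height over a large finite set of places. -/
lemma height_eq {x : ι → K} (hx : x ≠ 0) (A : Finset (FinitePlace K))
    (hA : ∀ v : FinitePlace K, nrm v.val x ≠ 1 → v ∈ A) :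
    Height.mulHeight x = ∏ w ∈ Om A, nrm (av w) x ^ mt w := by
  rw [prod_Om, NumberField.mulHeight_eq hx, finprod_eq_prod_of_mulSupport_subset (s := A)]
  · simp only [av, mt, nrm, pow_one]
    rfl
  · intro v hv
    exact hA v hv

lemma finite_ne_one {y : K} (hy : y ≠ 0) : {v : FinitePlace K | v y ≠ 1}.Finite :=
  FinitePlace.hasFiniteMulSupport hy

lemma finite_nrm_ne_one [Nonempty ι] {x : ι → K} (hx : x ≠ 0) :
    {v : FinitePlace K | nrm v.val x ≠ 1}.Finite := by
  classical
  have hfin : (⋃ j : {j // x j ≠ 0}, {v : FinitePlace K | v (x j) ≠ 1}).Finite :=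
    Set.finite_iUnion fun j => finite_ne_one j.2
  obtain ⟨j₀, hj₀⟩ := Function.ne_iff.mp hx
  apply hfin.subset
  intro v hv
  by_contra hcon
  apply hv
  simp only [Set.mem_iUnion, Subtype.exists, not_exists, Set.mem_ofPred_eq, not_not] at hcon
  apply le_antisymm
  · apply nrm_le
    intro j
    by_cases hj : x j = 0
    · rw [hj, map_zero]; exact zero_le_one
    · exact (hcon j hj).le
  · have := hcon j₀ hj₀
    calc (1 : ℝ) = v.val (x j₀) := this.symm
      _ ≤ nrm v.val x := le_nrm _ _ _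

/-- A family of positive local constants, almost all equal to one. -/
structure LC (K : Type*) [Field K] [NumberField K] where
  /-- the constants -/
  c : FinitePlace K → ℝ
  pos : ∀ v, 0 < c v
  fin : {v | c v ≠ 1}.Finite

/-- A global constant attached to a family of local constants. -/
noncomputable def LC.tot (c : LC K) : ℝ := ∏ v ∈ c.fin.toFinset, max (c.c v) 1

lemma LC.one_le_tot (c : LC K) : 1 ≤ c.tot := by
  apply one_le_prod_real
  intro v _
  exact le_max_right _ _

lemma LC.prod_le_tot (c : LC K) (B : Finset (FinitePlace K)) : ∏ v ∈ B, c.c v ≤ c.tot := by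
  classical
  calc ∏ v ∈ B, c.c v ≤ ∏ v ∈ B, max (c.c v) 1 := by
        apply Finset.prod_le_prod
        · intro v _; exact (c.pos v).le
        · intro v _; exact le_max_left _ _
    _ ≤ ∏ v ∈ B ∪ c.fin.toFinset, max (c.c v) 1 := by
        apply prod_le_prod_subset_real Finset.subset_union_left
        intro v _
        exact le_max_right _ _
    _ = c.tot := by
        unfold LC.tot
        symm
        apply Finset.prod_subset Finset.subset_union_right
        intro v _ hv
        simp only [Set.Finite.mem_toFinset, Set.mem_ofPred_eq, not_not] at hv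
        rw [hv, max_self]

/-- Inverse of a family of local constants. -/
noncomputable def LC.inv (c : LC K) : LC K where
  c v := (c.c v)⁻¹
  pos v := inv_pos.mpr (c.pos v)
  fin := by
    apply c.fin.subset
    intro v hv h
    apply hv
    change (c.c v)⁻¹ = 1
    rw [show c.c v = 1 from h, inv_one]

/-- Normalised value of a form of degree `e` at a place. -/
noncomputable def ra (w : Pl K) (y : K) (x : ι → K) (e : ℕ) : ℝ :=
  (av w y / nrm (av w) x ^ e) ^ mt w

lemma ra_nonneg (w : Pl K) (y : K) (x : ι → K) (e : ℕ) : 0 ≤ ra w y x e :=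
  pow_nonneg (div_nonneg ((av w).nonneg y) (pow_nonneg (nrm_nonneg _ _) _)) _

lemma ra_inr (v : FinitePlace K) (y : K) (x : ι → K) (e : ℕ) :
    ra (.inr v) y x e = v.val y / nrm v.val x ^ e := by
  simp [ra, av, mt]

variable [Nonempty ι]

lemma global_eq {S : Finset (FinitePlace K)} {x : ι → K} (hx : x ≠ 0) {y : K} (hy : y ≠ 0)
    (e : ℕ) : ∃ A : Finset (FinitePlace K), S ⊆ A ∧
      (∏ w ∈ Om S, ra w y x e) * (∏ v ∈ A \ S, v.val y / nrm v.val x ^ e) *
        Height.mulHeight x ^ e = 1 := by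
  set A : Finset (FinitePlace K) :=
    S ∪ (finite_ne_one hy).toFinset ∪ (finite_nrm_ne_one hx).toFinset with hA
  refine ⟨A, ?_, ?_⟩
  · intro v hv
    simp [hA, hv]
  · have h1 := prodFormula hy A (fun v hv => by simp [hA, hv])
    have h2 := height_eq hx A (fun v hv => by simp [hA, hv])
    have h3 : ∏ w ∈ Om A, ra w y x e = (∏ w ∈ Om A, av w y ^ mt w) /
        (∏ w ∈ Om A, nrm (av w) x ^ mt w) ^ e := by
      rw [← Finset.prod_pow, ← Finset.prod_div_distrib]
      apply Finset.prod_congr rfl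
      intro w _
      unfold ra
      rw [div_pow, ← pow_mul, ← pow_mul, mul_comm]
    have hSA : S ⊆ A := by
      intro v hv
      simp [hA, hv]
    rw [h1, ← h2, prod_Om_of_subset hSA] at h3
    simp only [ra_inr] at h3
    rw [h3]
    have := Height.mulHeight_pos x
    field_simp

/-- Global lower bound for the product of local values over `S`. -/
lemma global_lower {S : Finset (FinitePlace K)} {x : ι → K} (hx : x ≠ 0) {y : K} (hy : y ≠ 0)
    (e : ℕ) (c : LC K) (h : ∀ v : FinitePlace K, v ∉ S → v.val y ≤ c.c v * nrm v.val x ^ e) :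
    1 ≤ (∏ w ∈ Om S, ra w y x e) * c.tot * Height.mulHeight x ^ e := by
  obtain ⟨A, hSA, hA⟩ := global_eq (S := S) hx hy e
  have hH := Height.mulHeight_pos x
  have h1 : ∏ v ∈ A \ S, v.val y / nrm v.val x ^ e ≤ c.tot := by
    refine le_trans (Finset.prod_le_prod ?_ ?_) (c.prod_le_tot (A \ S))
    · intro v _
      exact div_nonneg (v.val.nonneg y) (pow_nonneg (nrm_nonneg _ _) _)
    · intro v hv
      rw [div_le_iff₀ (pow_pos (nrm_pos _ hx) _)]
      exact h v (Finset.mem_sdiff.mp hv).2
  have h2 : 0 ≤ ∏ w ∈ Om S, ra w y x e := Finset.prod_nonneg fun w _ => ra_nonneg _ _ _ _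
  calc (1 : ℝ) = (∏ w ∈ Om S, ra w y x e) * (∏ v ∈ A \ S, v.val y / nrm v.val x ^ e) *
        Height.mulHeight x ^ e := hA.symm
    _ ≤ (∏ w ∈ Om S, ra w y x e) * c.tot * Height.mulHeight x ^ e := by gcongr

/-- Global upper bound for the product of local values over `S`. -/
lemma global_upper {S : Finset (FinitePlace K)} {x : ι → K} (hx : x ≠ 0) {y : K} (hy : y ≠ 0)
    (e : ℕ) (c : LC K) (h : ∀ v : FinitePlace K, v ∉ S → c.c v * nrm v.val x ^ e ≤ v.val y) :
    (∏ w ∈ Om S, ra w y x e) * Height.mulHeight x ^ e ≤ c.inv.tot := by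
  obtain ⟨A, hSA, hA⟩ := global_eq (S := S) hx hy e
  have hH := Height.mulHeight_pos x
  have hpos : ∀ v ∈ A \ S, 0 < v.val y / nrm v.val x ^ e := fun v _ =>
    div_pos (v.val.pos hy) (pow_pos (nrm_pos _ hx) _)
  have h1 : 1 ≤ c.inv.tot * ∏ v ∈ A \ S, v.val y / nrm v.val x ^ e := by
    have h3 : 1 ≤ (∏ v ∈ A \ S, c.inv.c v) * ∏ v ∈ A \ S, v.val y / nrm v.val x ^ e := by
      rw [← Finset.prod_mul_distrib]
      apply one_le_prod_real
      intro v hv
      have hn := pow_pos (nrm_pos v.val hx) e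
      have hc := c.pos v
      simp only [LC.inv]
      rw [inv_mul_eq_div, le_div_iff₀ hc, one_mul, le_div_iff₀ hn]
      exact h v (Finset.mem_sdiff.mp hv).2
    have h4 : 0 < ∏ v ∈ A \ S, v.val y / nrm v.val x ^ e := Finset.prod_pos hpos
    calc (1 : ℝ) ≤ (∏ v ∈ A \ S, c.inv.c v) * ∏ v ∈ A \ S, v.val y / nrm v.val x ^ e := h3
      _ ≤ c.inv.tot * ∏ v ∈ A \ S, v.val y / nrm v.val x ^ e := by
          have := c.inv.prod_le_tot (A \ S)
          gcongr
  have h2 : 0 ≤ ∏ w ∈ Om S, ra w y x e := Finset.prod_nonneg fun w _ => ra_nonneg _ _ _ _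
  calc (∏ w ∈ Om S, ra w y x e) * Height.mulHeight x ^ e
      ≤ (∏ w ∈ Om S, ra w y x e) * Height.mulHeight x ^ e *
        (c.inv.tot * ∏ v ∈ A \ S, v.val y / nrm v.val x ^ e) := by
          apply le_mul_of_one_le_right _ h1
          positivity
    _ = c.inv.tot * ((∏ w ∈ Om S, ra w y x e) * (∏ v ∈ A \ S, v.val y / nrm v.val x ^ e) *
        Height.mulHeight x ^ e) := by ring
    _ = c.inv.tot := by rw [hA, mul_one]

end Pool.Agent.Helper10.LV
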