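import Pool.Agent.Helper10.LV.Main

set_option autoImplicit false
set_option linter.unusedSectionVars false

namespace Pool.Agent.Helper10.LV

open NumberField MvPolynomial
open scoped Classical LinearAlgebra.Projectivization

variable {K : Type*} [Field K] [NumberField K] {ι : Type*} [Fintype ι] [Nonempty ι]

lemma num_combine {c C₁ C₂ H R : ℝ} (hc : 0 < c) (hC₂ : 0 < C₂) (hH : 1 ≤ H)
    (hR : 0 ≤ R) {k e μ d : ℕ} (hlt : μ * e < k * d) (h1 : c * R ^ μ * H ^ d ≤ C₁)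
    (h2 : 1 ≤ C₂ * R ^ k * H ^ e) : H ≤ C₁ ^ k * C₂ ^ μ / c ^ k := by
  have hH0 : 0 < H := lt_of_lt_of_le one_pos hH
  have a1 : (c * R ^ μ * H ^ d) ^ k ≤ C₁ ^ k := pow_le_pow_left₀ (by positivity) h1 k
  have a2 : 1 ≤ (C₂ * R ^ k * H ^ e) ^ μ := one_le_pow₀ h2
  rw [le_div_iff₀ (pow_pos hc k)]
  have a3 : H ^ (k * d) * c ^ k ≤ C₁ ^ k * C₂ ^ μ * H ^ (μ * e) := by
    calc H ^ (k * d) * c ^ k = c ^ k * H ^ (k * d) * 1 := by ring
      _ ≤ c ^ k * H ^ (k * d) * (C₂ * R ^ k * H ^ e) ^ μ := by gcongr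
      _ = (c * R ^ μ * H ^ d) ^ k * (C₂ ^ μ * H ^ (μ * e)) := by ring
      _ ≤ C₁ ^ k * (C₂ ^ μ * H ^ (μ * e)) := by gcongr
      _ = C₁ ^ k * C₂ ^ μ * H ^ (μ * e) := by ring
  have a4 : H ^ (μ * e) * (H * c ^ k) ≤ H ^ (k * d) * c ^ k := by
    have : H ^ (μ * e + 1) ≤ H ^ (k * d) := pow_le_pow_right₀ hH hlt
    calc H ^ (μ * e) * (H * c ^ k) = H ^ (μ * e + 1) * c ^ k := by ring
      _ ≤ H ^ (k * d) * c ^ k := by gcongr
  have a5 : H ^ (μ * e) * (H * c ^ k) ≤ H ^ (μ * e) * (C₁ ^ k * C₂ ^ μ) :=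
    a4.trans (a3.trans (le_of_eq (by ring)))
  exact le_of_mul_le_mul_left a5 (pow_pos hH0 _)

/-- Normalised distance to a point, or `1`. -/
noncomputable def rr (W : Pl K → AbsoluteValue (AlgebraicClosure K) ℝ)
    {G : Finset (ℙ (AlgebraicClosure K) (ι → AlgebraicClosure K))} (x : ι → K) (v : Pl K) :
    Option {q // q ∈ G} → ℝ
  | none => 1
  | some q => nrm (W v) (wedge q.1.rep (up x)) / nrm (av v) x

lemma rr_nonneg (W : Pl K → AbsoluteValue (AlgebraicClosure K) ℝ)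
    {G : Finset (ℙ (AlgebraicClosure K) (ι → AlgebraicClosure K))} (x : ι → K) (v : Pl K)
    (o : Option {q // q ∈ G}) : 0 ≤ rr W x v o := by
  rcases o with _ | q
  · exact zero_le_one
  · exact div_nonneg (nrm_nonneg _ _) (nrm_nonneg _ _)

/-- The product of the normalised distances. -/
noncomputable def RR (S : Finset (FinitePlace K))
    (W : Pl K → AbsoluteValue (AlgebraicClosure K) ℝ)
    {G : Finset (ℙ (AlgebraicClosure K) (ι → AlgebraicClosure K))} (x : ι → K)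
    (f : {v // v ∈ Om S} → Option {q // q ∈ G}) : ℝ :=
  ∏ v : {v // v ∈ Om S}, rr W x v.1 (f v) ^ mt v.1

lemma RR_nonneg (S : Finset (FinitePlace K))
    (W : Pl K → AbsoluteValue (AlgebraicClosure K) ℝ)
    {G : Finset (ℙ (AlgebraicClosure K) (ι → AlgebraicClosure K))} (x : ι → K)
    (f : {v // v ∈ Om S} → Option {q // q ∈ G}) : 0 ≤ RR S W x f :=
  Finset.prod_nonneg fun v _ => pow_nonneg (rr_nonneg W x v.1 (f v)) _

variable {r : ℕ}

/-- The upper bound coming from integrality. -/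
lemma integral_upper (S : Finset (FinitePlace K)) (J : Set (MvPolynomial ι K))
    (hJ : ∀ g ∈ J, ∃ e, g.IsHomogeneous e) (F : Fin r → MvPolynomial ι K) (d : Fin r → ℕ)
    (hF : ∀ i, (F i).IsHomogeneous (d i)) (m μ : ℕ) (hr : m * (Om S).card < r)
    (Q : Finset (ℙ (AlgebraicClosure K) (ι → AlgebraicClosure K)))
    (hmeet : ∀ I : Finset (Fin r), I.card = m + 1 → MeetCond J F I Q μ)
    (W : Pl K → AbsoluteValue (AlgebraicClosure K) ℝ)
    (hW : ∀ v, ∀ x : K, W v (algebraMap K (AlgebraicClosure K) x) = av v x)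
    (T : Set (ℙ K (ι → K))) (hTX : ∀ P ∈ T, OnX J P.rep) (hT : IntegralSet S F d T) :
    ∃ (c C : ℝ), 0 < c ∧ 0 < C ∧
      ∀ P ∈ T, ∃ (i : Fin r)
        (f : {v // v ∈ Om S} → Option {q // q ∈ Q.filter (fun q => ¬ Isolated S J q)}),
        c * RR S W P.rep f ^ μ * Height.mulHeight P.rep ^ d i ≤ C := by
  obtain ⟨c, hc, h⟩ := local_data S J hJ F d hF m μ Q hmeet W hW
  obtain ⟨t, ht0, htfin, ht⟩ := hT
  set t' : LC K := ⟨t, ht0, htfin⟩ with ht'
  refine ⟨∏ v : {v // v ∈ Om S}, c ^ mt v.1, t'.inv.tot,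
    Finset.prod_pos fun v _ => pow_pos hc _, lt_of_lt_of_le one_pos t'.inv.one_le_tot, ?_⟩
  intro P hP
  have hx : P.rep ≠ 0 := P.rep_nonzero
  obtain ⟨i, hi⟩ := good_index S F d m μ hr W (Q.filter (fun q => ¬ Isolated S J q)) c P.rep
    (fun v hv I hI => h v hv P.rep hx (hTX P hP) I hI)
  have hch : ∀ v : {v // v ∈ Om S},
      ∃ o : Option {q // q ∈ Q.filter (fun q => ¬ Isolated S J q)},
      c * rr W P.rep v.1 o ^ μ ≤ av v.1 (eval P.rep (F i)) / nrm (av v.1) P.rep ^ d i := by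
    intro v
    rcases hi v.1 v.2 with h1 | ⟨q, hq, h1⟩
    · exact ⟨none, by simpa [rr] using h1⟩
    · exact ⟨some ⟨q, hq⟩, h1⟩
  choose f hf using hch
  refine ⟨i, f, ?_⟩
  obtain ⟨hne, hint⟩ := ht P hP i
  have hup := global_upper (S := S) hx hne (d i) t' (fun v hv => hint v hv)
  refine le_trans ?_ hup
  have hH := Height.mulHeight_pos P.rep
  apply mul_le_mul_of_nonneg_right _ (pow_nonneg hH.le _)
  rw [RR, ← Finset.prod_pow, ← Finset.prod_mul_distrib,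
    ← Finset.prod_coe_sort (Om S) (fun w => ra w (eval P.rep (F i)) P.rep (d i))]
  apply Finset.prod_le_prod
  · intro v _
    exact mul_nonneg (pow_nonneg hc.le _) (pow_nonneg (pow_nonneg (rr_nonneg _ _ _ _) _) _)
  · intro v _
    unfold ra
    calc c ^ mt v.1 * (rr W P.rep v.1 (f v) ^ mt v.1) ^ μ
        = (c * rr W P.rep v.1 (f v) ^ μ) ^ mt v.1 := by
          rw [mul_pow, ← pow_mul, ← pow_mul, mul_comm (mt v.1) μ]
      _ ≤ _ := by
          apply pow_le_pow_left₀ (mul_nonneg hc.le (pow_nonneg (rr_nonneg _ _ _ _) _))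
          exact hf v

end Pool.Agent.Helper10.LV
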