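import Pool.Agent.Helper10.LV.Local

set_option autoImplicit false
set_option linter.unusedSectionVars false

namespace Pool.Agent.Helper10.LV

open MvPolynomial
open scoped Classical LinearAlgebra.Projectivization

section Aux

variable {K : Type*} [Field K] {L : Type*} [Field L] [Algebra K L] {ι : Type*} [Fintype ι]

/-- Linear change of coordinates moving the point `q` (with `q j₀ = 1`) to a coordinate point. -/
noncomputable def psi (q : ι → L) (j₀ : ι) : MvPolynomial ι K →ₐ[K] MvPolynomial ι L :=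
  aeval (fun i => if i = j₀ then X j₀ else X i + C (q i) * X j₀)

/-- The new coordinates. -/
noncomputable def newc (q : ι → L) (j₀ : ι) (x : ι → L) : ι → L :=
  fun i => if i = j₀ then x j₀ else x i - q i * x j₀

lemma eval_psi (q : ι → L) (j₀ : ι) (x : ι → K) (E : MvPolynomial ι K) :
    eval (newc q j₀ (fun i => algebraMap K L (x i))) (psi q j₀ E) =
      algebraMap K L (eval x E) := by
  induction E using MvPolynomial.induction_on with
  | C r => simp [psi]
  | add p q hp hq => rw [map_add, map_add, hp, hq, map_add, map_add]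
  | mul_X p i hp =>
    rw [map_mul, map_mul, hp, map_mul, eval_X, map_mul]
    congr 1
    simp only [psi, aeval_X]
    split_ifs with h
    · subst h; simp [newc]
    · simp [newc, h]

lemma psi_hom (q : ι → L) (j₀ : ι) {e : ℕ} {E : MvPolynomial ι K} (hE : E.IsHomogeneous e) :
    (psi q j₀ E).IsHomogeneous e := by
  have h := hE.aeval (n := 1) (fun i => if i = j₀ then X j₀ else X i + C (q i) * X j₀ :
    ι → MvPolynomial ι L) ?_
  · simpa [psi] using h
  · intro i
    by_cases hi : i = j₀
    · simp only [hi, if_true]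
      exact isHomogeneous_X _ _
    · simp only [hi, if_false]
      exact (isHomogeneous_X _ _).add (by
        simpa using (isHomogeneous_C ι (q i)).mul (isHomogeneous_X L j₀))

variable [Nonempty ι] (w : AbsoluteValue L ℝ)

lemma nrm_wedge_le (q x : ι → L) : nrm w (wedge q x) ≤ 2 * nrm w q * nrm w x := by
  apply nrm_le
  rintro ⟨a, b⟩
  simp only [wedge]
  calc w (q a * x b - q b * x a) ≤ w (q a * x b) + w (q b * x a) := by
        rw [sub_eq_add_neg]
        refine (w.add_le _ _).trans ?_
        rw [w.map_neg]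
    _ = w (q a) * w (x b) + w (q b) * w (x a) := by rw [map_mul, map_mul]
    _ ≤ nrm w q * nrm w x + nrm w q * nrm w x := by
        have h1 := le_nrm w q a
        have h2 := le_nrm w q b
        have h3 := le_nrm w x a
        have h4 := le_nrm w x b
        have h5 := nrm_nonneg w q
        have h6 := nrm_nonneg w x
        gcongr
    _ = 2 * nrm w q * nrm w x := by ring

/-- If `E` vanishes to order `k` at `q`, its values are bounded by the `k`-th power of the
distance to `q`. -/
theorem vanish_est (q : ι → L) (j₀ : ι) (hq : q j₀ ≠ 0) {e k : ℕ} {E : MvPolynomial ι K}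
    (hE : E.IsHomogeneous e)
    (hvan : ∀ m : ι →₀ ℕ, m.degree = e → e < m j₀ + k →
      coeff m (psi (fun i => q i / q j₀) j₀ E) = 0) :
    ∃ C : ℝ, 0 < C ∧ ∀ x : ι → K, x ≠ 0 →
      w (algebraMap K L (eval x E)) / nrm w (fun i => algebraMap K L (x i)) ^ e ≤
        C * (nrm w (wedge q (fun i => algebraMap K L (x i))) /
          nrm w (fun i => algebraMap K L (x i))) ^ k := by
  set P : MvPolynomial ι L := psi (fun i => q i / q j₀) j₀ E with hP
  have hPhom : P.IsHomogeneous e := psi_hom _ _ hE
  have hqw : 0 < w (q j₀) := w.pos hq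
  set a : ℝ := (w (q j₀))⁻¹ with ha
  have ha0 : 0 < a := inv_pos.mpr hqw
  set B : ℝ := 1 + 2 * nrm w q with hB
  have hB1 : 1 ≤ B := by
    have := nrm_nonneg w q
    linarith
  set A : ℝ := max 1 a with hA
  have hA1 : 1 ≤ A := le_max_left _ _
  refine ⟨1 + ∑ m ∈ P.support, w (coeff m P) * (A * B) ^ e, ?_, ?_⟩
  · have : 0 ≤ ∑ m ∈ P.support, w (coeff m P) * (A * B) ^ e :=
      Finset.sum_nonneg fun m _ => by positivity
    linarith
  intro x hx
  set x' : ι → L := fun i => algebraMap K L (x i) with hx'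
  have hx'0 : x' ≠ 0 := by
    intro h
    apply hx
    ext i
    have := congrFun h i
    simpa [hx'] using this
  have hN : 0 < nrm w x' := nrm_pos w hx'0
  set N := nrm w x' with hNdef
  set ρ := nrm w (wedge q x') with hρ
  have hρ0 : 0 ≤ ρ := nrm_nonneg _ _
  have hρN : ρ ≤ B * N := by
    have h1 := nrm_wedge_le w q x'
    have h2 : 2 * nrm w q * nrm w x' ≤ B * N := by
      rw [hB, ← hNdef]
      nlinarith
    exact h1.trans h2
  -- normalised quantities
  set z : ι → L := newc (fun i => q i / q j₀) j₀ x' with hz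
  have hz0 : w (z j₀) ≤ N := by
    simp only [hz, newc, if_true]
    exact le_nrm w x' j₀
  have hzi : ∀ i, i ≠ j₀ → w (z i) ≤ A * ρ := by
    intro i hi
    have e1 : z i = (q j₀)⁻¹ * wedge q x' (j₀, i) := by
      simp only [hz, newc, hi, if_false, wedge]
      field_simp
    rw [e1, map_mul, map_inv₀]
    have h1 : w (wedge q x' (j₀, i)) ≤ ρ := le_nrm w _ (j₀, i)
    have h2 : (w (q j₀))⁻¹ ≤ A := le_max_right _ _
    gcongr
  have hval : algebraMap K L (eval x E) = eval z P := (eval_psi _ _ _ _).symm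
  rw [hval, eval_eq]
  -- the estimate of a single monomial
  have hmon : ∀ m ∈ P.support, w (coeff m P * ∏ i ∈ m.support, z i ^ m i) ≤
      w (coeff m P) * (A * B) ^ e * ρ ^ k * N ^ e / N ^ k := by
    intro m hm
    have hdeg : m.degree = e := by
      have := hPhom (mem_support_iff.mp hm)
      rwa [Finsupp.degree_eq_weight_one]
    have hk : m j₀ + k ≤ e := by
      by_contra hcon
      exact (mem_support_iff.mp hm) (hvan m hdeg (by omega))
    have hsum : e = m j₀ + ∑ i ∈ Finset.univ.erase j₀, m i := by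
      rw [Finset.add_sum_erase _ _ (Finset.mem_univ j₀), ← hdeg, Finsupp.degree_eq_sum]
    set l := ∑ i ∈ Finset.univ.erase j₀, m i with hl
    have hlk : k ≤ l := by omega
    obtain ⟨t, ht⟩ := Nat.exists_eq_add_of_le hlk
    have e1 : ∏ i ∈ m.support, z i ^ m i = ∏ i, z i ^ m i := by
      apply Finset.prod_subset (Finset.subset_univ _)
      intro i _ hi
      rw [Finsupp.notMem_support_iff.mp hi, pow_zero]
    have e2 : w (∏ i, z i ^ m i) ≤ N ^ (m j₀) * (A * ρ) ^ l := by
      rw [map_prod, ← Finset.mul_prod_erase _ _ (Finset.mem_univ j₀), map_pow, hl,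
        ← Finset.prod_pow_eq_pow_sum]
      apply mul_le_mul
      · exact pow_le_pow_left₀ (w.nonneg _) hz0 _
      · apply Finset.prod_le_prod
        · intro i _; exact w.nonneg _
        · intro i hi
          rw [map_pow]
          exact pow_le_pow_left₀ (w.nonneg _) (hzi i (Finset.ne_of_mem_erase hi)) _
      · exact Finset.prod_nonneg fun i _ => w.nonneg _
      · positivity
    rw [e1, map_mul]
    have e3 : N ^ (m j₀) * (A * ρ) ^ l ≤ (A * B) ^ e * ρ ^ k * N ^ e / N ^ k := by
      rw [ht, mul_pow]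
      have h1 : ρ ^ (k + t) ≤ ρ ^ k * (B * N) ^ t := by
        rw [pow_add]
        gcongr
      have h2 : A ^ (k + t) ≤ A ^ e := pow_le_pow_right₀ hA1 (by omega)
      have h3 : B ^ t ≤ B ^ e := pow_le_pow_right₀ hB1 (by omega)
      have h4 : N ^ e = N ^ (m j₀) * N ^ k * N ^ t := by
        rw [← pow_add, ← pow_add]
        congr 1
        omega
      have hNk : 0 < N ^ k := pow_pos hN _
      calc N ^ (m j₀) * (A ^ (k + t) * ρ ^ (k + t))
          ≤ N ^ (m j₀) * (A ^ e * (ρ ^ k * (B * N) ^ t)) := by gcongr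
        _ = N ^ (m j₀) * (A ^ e * (ρ ^ k * (B ^ t * N ^ t))) := by rw [mul_pow]
        _ ≤ N ^ (m j₀) * (A ^ e * (ρ ^ k * (B ^ e * N ^ t))) := by gcongr
        _ = (A * B) ^ e * ρ ^ k * N ^ e / N ^ k := by
            rw [h4, mul_pow]
            field_simp
    calc w (coeff m P) * w (∏ i, z i ^ m i)
        ≤ w (coeff m P) * (N ^ (m j₀) * (A * ρ) ^ l) := by gcongr
      _ ≤ w (coeff m P) * ((A * B) ^ e * ρ ^ k * N ^ e / N ^ k) := by gcongr
      _ = w (coeff m P) * (A * B) ^ e * ρ ^ k * N ^ e / N ^ k := by ring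
  have hsumle : w (∑ m ∈ P.support, coeff m P * ∏ i ∈ m.support, z i ^ m i) ≤
      (∑ m ∈ P.support, w (coeff m P) * (A * B) ^ e) * (ρ ^ k * N ^ e / N ^ k) := by
    rw [Finset.sum_mul]
    refine (w.sum_le _ _).trans (Finset.sum_le_sum fun m hm => ?_)
    refine (hmon m hm).trans (le_of_eq ?_)
    ring
  rw [div_le_iff₀ (pow_pos hN e), div_pow]
  have h0 : 0 ≤ ρ ^ k * N ^ e / N ^ k := by positivity
  calc w (∑ m ∈ P.support, coeff m P * ∏ i ∈ m.support, z i ^ m i)
      ≤ (∑ m ∈ P.support, w (coeff m P) * (A * B) ^ e) * (ρ ^ k * N ^ e / N ^ k) := hsumle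
    _ ≤ (1 + ∑ m ∈ P.support, w (coeff m P) * (A * B) ^ e) * (ρ ^ k * N ^ e / N ^ k) := by
        apply mul_le_mul_of_nonneg_right _ h0
        linarith
    _ = (1 + ∑ m ∈ P.support, w (coeff m P) * (A * B) ^ e) * (ρ ^ k / N ^ k) * N ^ e := by ring

end Aux

end Pool.Agent.Helper10.LV
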